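import Mathlib

namespace Pool.Agent.Lib.MP_3242d6_co

open Finset

section PowerSums
variable {F : Type*} [Field F]

/-- power sum of a finite set -/
def ps (C : Finset F) (i : ℕ) : F := ∑ x ∈ C, x ^ i

theorem ps_zero (C : Finset F) : ps C 0 = (C.card : F) := by simp [ps]

theorem ps_two_mul [CharP F 2] (C : Finset F) (i : ℕ) : ps C (2 * i) = ps C i ^ 2 := by
  have : Fact (Nat.Prime 2) := ⟨Nat.prime_two⟩
  unfold ps
  rw [sum_pow_char 2]
  refine Finset.sum_congr rfl fun x _ => ?_
  rw [← pow_mul, mul_comm]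

theorem add_pow_two_pow_sub_one [CharP F 2] (x t : F) (n : ℕ) :
    (x + t) ^ (2 ^ n - 1) = ∑ k ∈ range (2 ^ n), x ^ k * t ^ (2 ^ n - 1 - k) := by
  have : Fact (Nat.Prime 2) := ⟨Nat.prime_two⟩
  have hx : x + t = x - t := (CharTwo.sub_eq_add x t).symm
  have h1 : (∑ k ∈ range (2 ^ n), x ^ k * t ^ (2 ^ n - 1 - k)) * (x - t)
      = (x + t) ^ (2 ^ n - 1) * (x - t) := by
    rw [Commute.geom_sum₂_mul (Commute.all x t), hx, ← pow_succ,
      Nat.sub_add_cancel (Nat.one_le_two_pow), sub_pow_char_pow]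
  by_cases h : x - t = 0
  · have hxt : x = t := sub_eq_zero.mp h
    subst hxt
    rcases Nat.eq_zero_or_pos n with hn | hn
    · subst hn; simp
    · have h2 : x + x = 0 := CharTwo.add_self_eq_zero x
      rw [h2]
      have h3 : 2 ^ n - 1 ≠ 0 := by
        have : 2 ^ 1 ≤ 2 ^ n := Nat.pow_le_pow_right (by norm_num) hn
        omega
      rw [zero_pow h3]
      symm
      have : ∀ k ∈ range (2 ^ n), x ^ k * x ^ (2 ^ n - 1 - k) = x ^ (2 ^ n - 1) := by
        intro k hk
        rw [← pow_add]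
        congr 1
        have := Finset.mem_range.mp hk
        omega
      rw [Finset.sum_congr rfl this]
      simp only [sum_const, card_range, nsmul_eq_mul, Nat.cast_pow, Nat.cast_ofNat]
      rw [CharTwo.two_eq_zero, zero_pow (by omega), zero_mul]
  · exact (mul_right_cancel₀ h h1).symm

/-- a translation-invariant set -/
theorem ps_translate [CharP F 2] [DecidableEq F] (C : Finset F) (t : F) (hC : ∀ x ∈ C, x + t ∈ C) (n : ℕ) :
    ∑ k ∈ range (2 ^ n - 1), t ^ (2 ^ n - 1 - k) * ps C k = 0 := by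
  have himg : C.image (fun x => x + t) = C := by
    apply Finset.eq_of_subset_of_card_le
    · intro y hy
      obtain ⟨x, hx, rfl⟩ := Finset.mem_image.mp hy
      exact hC x hx
    · rw [Finset.card_image_of_injective _ (add_left_injective t)]
  have h1 : ps C (2 ^ n - 1) = ∑ x ∈ C, (x + t) ^ (2 ^ n - 1) := by
    conv_lhs => rw [← himg]
    unfold ps
    rw [Finset.sum_image]
    intro a _ b _ h
    exact add_left_injective t h
  have h2 : ∑ x ∈ C, (x + t) ^ (2 ^ n - 1) = ∑ k ∈ range (2 ^ n), t ^ (2 ^ n - 1 - k) * ps C k := by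
    simp_rw [add_pow_two_pow_sub_one]
    rw [Finset.sum_comm]
    refine Finset.sum_congr rfl fun k _ => ?_
    unfold ps
    rw [Finset.mul_sum]
    refine Finset.sum_congr rfl fun x _ => mul_comm _ _
  have h3 : 2 ^ n = (2 ^ n - 1) + 1 := (Nat.sub_add_cancel (Nat.one_le_two_pow)).symm
  rw [h2] at h1
  rw [h3, Finset.sum_range_succ] at h1
  simp only [Nat.add_sub_cancel, Nat.sub_self, pow_zero, one_mul] at h1
  exact (left_eq_add.mp (by rw [add_comm]; exact h1))

end PowerSums

section Rot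
variable {F : Type*} [Field F]

theorem ps_scale [DecidableEq F] (C : Finset F) (a : F) (ha : a ≠ 0) (hC : ∀ x ∈ C, a * x ∈ C) (i : ℕ) :
    ps C i = a ^ i * ps C i := by
  have himg : C.image (fun x => a * x) = C := by
    apply Finset.eq_of_subset_of_card_le
    · intro y hy
      obtain ⟨x, hx, rfl⟩ := Finset.mem_image.mp hy
      exact hC x hx
    · rw [Finset.card_image_of_injective _ (mul_right_injective₀ ha)]
  conv_lhs => rw [← himg]
  unfold ps
  rw [Finset.sum_image, Finset.mul_sum]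
  · refine Finset.sum_congr rfl fun x _ => mul_pow _ _ _
  · intro x _ y _ h
    exact mul_right_injective₀ ha h

theorem ps_eq_zero_of_not_dvd [DecidableEq F] (C : Finset F) (ζ : F) (d : ℕ) (hd : 0 < d)
    (hζ : IsPrimitiveRoot ζ d) (hC : ∀ x ∈ C, ζ * x ∈ C) (i : ℕ) (hi : ¬ d ∣ i) : ps C i = 0 := by
  have h0 : ζ ≠ 0 := hζ.ne_zero hd.ne'
  have h1 := ps_scale C ζ h0 hC i
  have h2 : ζ ^ i ≠ 1 := fun h => hi (hζ.dvd_of_pow_eq_one i h)
  have h3 : (1 - ζ ^ i) * ps C i = 0 := by
    rw [sub_mul, one_mul, ← h1, sub_self]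
  rcases mul_eq_zero.mp h3 with h | h
  · exact absurd (sub_eq_zero.mp h).symm h2
  · exact h

theorem card_even_of_translate [CharP F 2] [DecidableEq F] (C : Finset F) (t : F) (ht : t ≠ 0)
    (hC : ∀ x ∈ C, x + t ∈ C) : ps C 0 = 0 := by
  have h := ps_translate C t hC 1
  simp at h
  exact h.resolve_left ht

theorem noTrans_B1 [CharP F 2] [DecidableEq F] (C : Finset F) (ζ : F) (d n : ℕ) (hd : 0 < d)
    (hζ : IsPrimitiveRoot ζ d) (hC : ∀ x ∈ C, ζ * x ∈ C) (h1 : d < 2 ^ n - 1) (h2 : 2 ^ n - 1 < 2 * d)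
    (hp : ps C d ≠ 0) (t : F) (hT : ∀ x ∈ C, x + t ∈ C) : t = 0 := by
  by_contra ht
  have h0 := card_even_of_translate C t ht hT
  have h := ps_translate C t hT n
  rw [Finset.sum_eq_single d] at h
  · rcases mul_eq_zero.mp h with h | h
    · exact ht (pow_eq_zero_iff (by omega) |>.mp h)
    · exact hp h
  · intro k hk hkd
    rcases Nat.eq_zero_or_pos k with hk0 | hk0
    · subst hk0; rw [h0, mul_zero]
    · rw [ps_eq_zero_of_not_dvd C ζ d hd hζ hC k, mul_zero]
      rintro ⟨c, rfl⟩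
      have := Finset.mem_range.mp hk
      rcases c with _ | _ | c
      · simp at hk0
      · simp at hkd
      · have : 2 * d ≤ d * (c + 1 + 1) := by nlinarith
        omega
  · intro hk
    exact absurd (Finset.mem_range.mpr h1) hk

theorem trans_B2 [CharP F 2] [DecidableEq F] (C : Finset F) (ζ : F) (d b : ℕ) (hb : 2 ≤ b) (hdb : d = 2 ^ b - 1)
    (hζ : IsPrimitiveRoot ζ d) (hC : ∀ x ∈ C, ζ * x ∈ C)
    (hp : ps C d ≠ 0) (t : F) (ht : t ≠ 0) (hT : ∀ x ∈ C, x + t ∈ C) :
    ps C (3 * d) = ps C d ^ 3 := by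
  have h4 : 2 ^ 2 ≤ 2 ^ b := Nat.pow_le_pow_right (by norm_num) hb
  have hd3 : 3 ≤ d := by omega
  have hd : 0 < d := by omega
  have h0 := card_even_of_translate C t ht hT
  have key : ∀ k, ¬ d ∣ k → ps C k = 0 := fun k hk => ps_eq_zero_of_not_dvd C ζ d hd hζ hC k hk
  have e1 : 2 ^ (b + 1) - 1 = 2 * d + 1 := by
    rw [pow_succ]; omega
  have e2 : 2 ^ (b + 2) - 1 = 4 * d + 3 := by
    rw [pow_succ, pow_succ]; omega
  have s1 := ps_translate C t hT (b + 1)
  have s2 := ps_translate C t hT (b + 2)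
  rw [e1] at s1
  rw [e2] at s2
  have s1' : t ^ (2 * d + 1 - d) * ps C d + t ^ (2 * d + 1 - 2 * d) * ps C (2 * d) = 0 := by
    rw [← Finset.sum_pair (f := fun k => t ^ (2 * d + 1 - k) * ps C k) (by omega : d ≠ 2 * d), ← s1]
    apply Finset.sum_subset
    · intro k hk
      simp only [Finset.mem_insert, Finset.mem_singleton] at hk
      rw [Finset.mem_range]; omega
    · intro k hk hk'
      simp only [Finset.mem_insert, Finset.mem_singleton] at hk'
      have hk2 := Finset.mem_range.mp hk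
      rcases Nat.eq_zero_or_pos k with hk0 | hk0
      · subst hk0; rw [h0, mul_zero]
      · rw [key k, mul_zero]
        rintro ⟨c, rfl⟩
        rcases c with _ | _ | _ | c
        · simp at hk0
        · simp at hk'
        · exact hk' (Or.inr (by ring))
        · have : 3 * d ≤ d * (c + 1 + 1 + 1) := by nlinarith
          omega
  have s2' : t ^ (4 * d + 3 - d) * ps C d + (t ^ (4 * d + 3 - 2 * d) * ps C (2 * d) +
      (t ^ (4 * d + 3 - 3 * d) * ps C (3 * d) + t ^ (4 * d + 3 - 4 * d) * ps C (4 * d))) = 0 := by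
    rw [← Finset.sum_pair (f := fun k => t ^ (4 * d + 3 - k) * ps C k) (by omega : 3 * d ≠ 4 * d),
      ← Finset.sum_insert (a := 2 * d) (f := fun k => t ^ (4 * d + 3 - k) * ps C k)
        (by simp only [Finset.mem_insert, Finset.mem_singleton]; omega),
      ← Finset.sum_insert (a := d) (f := fun k => t ^ (4 * d + 3 - k) * ps C k)
        (by simp only [Finset.mem_insert, Finset.mem_singleton]; omega), ← s2]
    apply Finset.sum_subset
    · intro k hk
      simp only [Finset.mem_insert, Finset.mem_singleton] at hk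
      rw [Finset.mem_range]; omega
    · intro k hk hk'
      simp only [Finset.mem_insert, Finset.mem_singleton] at hk'
      have hk2 := Finset.mem_range.mp hk
      rcases Nat.eq_zero_or_pos k with hk0 | hk0
      · subst hk0; rw [h0, mul_zero]
      · rw [key k, mul_zero]
        rintro ⟨c, rfl⟩
        rcases c with _ | _ | _ | _ | _ | c
        · simp at hk0
        · simp at hk'
        · exact hk' (Or.inr (Or.inl (by ring)))
        · exact hk' (Or.inr (Or.inr (Or.inl (by ring))))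
        · exact hk' (Or.inr (Or.inr (Or.inr (by ring))))
        · have : 5 * d ≤ d * (c + 1 + 1 + 1 + 1 + 1) := by nlinarith
          omega
  have p2 : ps C (2 * d) = ps C d ^ 2 := ps_two_mul C d
  have p4 : ps C (4 * d) = ps C d ^ 4 := by
    have : 4 * d = 2 * (2 * d) := by ring
    rw [this, ps_two_mul, p2]; ring
  rw [p2] at s1' s2'
  rw [p4] at s2'
  have f1 : 2 * d + 1 - d = d + 1 := by omega
  have f2 : 2 * d + 1 - 2 * d = 1 := by omega
  have f3 : 4 * d + 3 - d = 3 * d + 3 := by omega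
  have f4 : 4 * d + 3 - 2 * d = 2 * d + 3 := by omega
  have f5 : 4 * d + 3 - 3 * d = d + 3 := by omega
  have f6 : 4 * d + 3 - 4 * d = 3 := by omega
  rw [f1, f2] at s1'
  rw [f3, f4, f5, f6] at s2'
  set P := ps C d with hP
  set P3 := ps C (3 * d) with hP3
  set b' := t ^ d with hb'
  have g1 : t * P * (b' + P) = 0 := by
    have : t ^ (d + 1) = t * b' := by rw [pow_succ, mul_comm]
    rw [this] at s1'
    linear_combination s1'
  have g2 : b' + P = 0 := by
    rcases mul_eq_zero.mp g1 with h | h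
    · exact absurd h (mul_ne_zero ht hp)
    · exact h
  have g3 : b' = P := by
    have := CharTwo.add_self_eq_zero P
    linear_combination g2 - this
  have g4 : t ^ 3 * (b' ^ 3 * P + b' ^ 2 * P ^ 2 + b' * P3 + P ^ 4) = 0 := by
    have e3 : t ^ (3 * d + 3) = t ^ 3 * b' ^ 3 := by rw [hb']; ring
    have e4 : t ^ (2 * d + 3) = t ^ 3 * b' ^ 2 := by rw [hb']; ring
    have e5 : t ^ (d + 3) = t ^ 3 * b' := by rw [hb']; ring
    rw [e3, e4, e5] at s2'
    linear_combination s2'
  have g5 : b' ^ 3 * P + b' ^ 2 * P ^ 2 + b' * P3 + P ^ 4 = 0 := by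
    rcases mul_eq_zero.mp g4 with h | h
    · exact absurd h (pow_ne_zero 3 ht)
    · exact h
  rw [g3] at g5
  have g6 : P * (P3 - P ^ 3) = 0 := by
    have h2 := CharTwo.add_self_eq_zero (P ^ 4)
    linear_combination g5 - 2 * h2
  rcases mul_eq_zero.mp g6 with h | h
  · exact absurd h hp
  · exact sub_eq_zero.mp h

end Rot

section Fibres
variable {F : Type*} [Field F] [DecidableEq F]

/-- the union of the fibres of `y ↦ y ^ d` over `J`, inside `V \ {0}`, with `0` added when `e = 1` -/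
def CJ (V : Finset F) (d : ℕ) (J : Finset F) (e : Bool) : Finset F :=
  V.filter (fun y => (y ≠ 0 ∧ y ^ d ∈ J) ∨ (y = 0 ∧ e = true))

/-- set of `d`-th powers of non-zero elements -/
def SV (V : Finset F) (d : ℕ) : Finset F := (V.filter (fun y => y ≠ 0)).image (fun y => y ^ d)

theorem fibre_card (V : Finset F) (d : ℕ) (hd : 0 < d) (ζ : F) (hζ : IsPrimitiveRoot ζ d)
    (hV : ∀ z : F, z ^ d = 1 → ∀ y ∈ V, z * y ∈ V) (u : F) (hu : u ∈ SV V d) :
    (V.filter (fun y => y ≠ 0 ∧ y ^ d = u)).card = d := by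
  obtain ⟨y0, hy0, rfl⟩ := Finset.mem_image.mp hu
  obtain ⟨hy0V, hy00⟩ := Finset.mem_filter.mp hy0
  have : (V.filter (fun y => y ≠ 0 ∧ y ^ d = y0 ^ d)) =
      (Polynomial.nthRootsFinset d (1 : F)).image (fun z => z * y0) := by
    ext y
    simp only [Finset.mem_filter, Finset.mem_image, Polynomial.mem_nthRootsFinset hd]
    constructor
    · rintro ⟨hyV, hy, hyd⟩
      refine ⟨y / y0, ?_, div_mul_cancel₀ y hy00⟩
      rw [div_pow, hyd, div_self (pow_ne_zero d hy00)]
    · rintro ⟨z, hz, rfl⟩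
      have hz0 : z ≠ 0 := by
        rintro rfl
        rw [zero_pow hd.ne'] at hz
        exact zero_ne_one hz
      exact ⟨hV z hz y0 hy0V, mul_ne_zero hz0 hy00, by rw [mul_pow, hz, one_mul]⟩
  rw [this, Finset.card_image_of_injective _ (mul_left_injective₀ hy00), hζ.card_nthRootsFinset]

theorem card_SV (V : Finset F) (h0 : (0 : F) ∈ V) (d : ℕ) (hd : 0 < d) (ζ : F) (hζ : IsPrimitiveRoot ζ d)
    (hV : ∀ z : F, z ^ d = 1 → ∀ y ∈ V, z * y ∈ V) : d * (SV V d).card + 1 = V.card := by
  have h1 : (V.filter (fun y => y ≠ 0)).card = d * (SV V d).card := by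
    have := Finset.card_eq_sum_card_fiberwise (f := fun y : F => y ^ d) (s := V.filter (fun y => y ≠ 0))
      (t := SV V d) (by
        intro y hy
        exact Finset.mem_image_of_mem _ hy)
    rw [this]
    have h2 : ∀ u ∈ SV V d, ((V.filter (fun y => y ≠ 0)).filter (fun y => y ^ d = u)).card = d := by
      intro u hu
      rw [Finset.filter_filter]
      exact fibre_card V d hd ζ hζ hV u hu
    rw [Finset.sum_congr rfl h2, Finset.sum_const, smul_eq_mul, mul_comm]
  rw [← h1]
  have h3 : V.filter (fun y => y ≠ 0) = V.erase 0 := by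
    ext y; simp [and_comm]
  rw [h3, Finset.card_erase_of_mem h0]
  have : 0 < V.card := Finset.card_pos.mpr ⟨0, h0⟩
  omega

theorem fibre_eq (V : Finset F) (d : ℕ) (J : Finset F) (u : F) (hu : u ∈ J) :
    (V.filter (fun y => y ≠ 0 ∧ y ^ d ∈ J)).filter (fun y => y ^ d = u)
      = V.filter (fun y => y ≠ 0 ∧ y ^ d = u) := by
  rw [Finset.filter_filter]
  apply Finset.filter_congr
  intro y _
  constructor
  · rintro ⟨⟨h1, _⟩, h3⟩; exact ⟨h1, h3⟩
  · rintro ⟨h1, h3⟩; exact ⟨⟨h1, by rw [h3]; exact hu⟩, h3⟩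

theorem CJ_card (V : Finset F) (h0 : (0 : F) ∈ V) (d : ℕ) (hd : 0 < d) (ζ : F) (hζ : IsPrimitiveRoot ζ d)
    (hV : ∀ z : F, z ^ d = 1 → ∀ y ∈ V, z * y ∈ V) (J : Finset F) (hJ : J ⊆ SV V d) (e : Bool) :
    (CJ V d J e).card = d * J.card + (if e then 1 else 0) := by
  unfold CJ
  rw [Finset.filter_or, Finset.card_union_of_disjoint]
  · congr 1
    · have := Finset.card_eq_sum_card_fiberwise (f := fun y : F => y ^ d)
        (s := V.filter (fun y => y ≠ 0 ∧ y ^ d ∈ J)) (t := J) (by
          intro y hy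
          exact (Finset.mem_filter.mp hy).2.2)
      rw [this]
      have h2 : ∀ u ∈ J, ((V.filter (fun y => y ≠ 0 ∧ y ^ d ∈ J)).filter (fun y => y ^ d = u)).card = d := by
        intro u hu
        rw [fibre_eq V d J u hu]
        exact fibre_card V d hd ζ hζ hV u (hJ hu)
      rw [Finset.sum_congr rfl h2, Finset.sum_const, smul_eq_mul, mul_comm]
    · cases e
      · simp
      · have : V.filter (fun y => y = 0 ∧ True) = {0} := by
          ext y
          simp only [Finset.mem_filter, Finset.mem_singleton, and_true]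
          constructor
          · rintro ⟨_, h⟩; exact h
          · rintro rfl; exact ⟨h0, rfl⟩
        simp
        rw [Finset.card_eq_one]
        exact ⟨0, by
          ext y
          simp only [Finset.mem_filter, Finset.mem_singleton]
          constructor
          · rintro ⟨_, h⟩; exact h
          · rintro rfl; exact ⟨h0, rfl⟩⟩
  · rw [Finset.disjoint_left]
    intro y hy hy'
    exact (Finset.mem_filter.mp hy).2.1 (Finset.mem_filter.mp hy').2.1

theorem CJ_ps (V : Finset F) (d : ℕ) (hd : 0 < d) (ζ : F) (hζ : IsPrimitiveRoot ζ d)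
    (hV : ∀ z : F, z ^ d = 1 → ∀ y ∈ V, z * y ∈ V) (J : Finset F) (hJ : J ⊆ SV V d) (e : Bool)
    (i : ℕ) (hi : 0 < i) (hdF : (d : F) = 1) :
    ps (CJ V d J e) (i * d) = ps J i := by
  unfold CJ ps
  rw [Finset.filter_or, Finset.sum_union]
  · have hz : ∑ x ∈ V.filter (fun y => y = 0 ∧ e = true), x ^ (i * d) = 0 := by
      apply Finset.sum_eq_zero
      intro x hx
      rw [(Finset.mem_filter.mp hx).2.1, zero_pow]
      exact Nat.mul_ne_zero hi.ne' hd.ne'
    rw [hz, add_zero]
    rw [← Finset.sum_fiberwise_of_maps_to (g := fun y : F => y ^ d) (t := J)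
      (by intro y hy; exact (Finset.mem_filter.mp hy).2.2)]
    refine Finset.sum_congr rfl fun u hu => ?_
    have h1 : ∀ y ∈ (V.filter (fun y => y ≠ 0 ∧ y ^ d ∈ J)).filter (fun y => y ^ d = u), y ^ (i * d) = u ^ i := by
      intro y hy
      rw [mul_comm, pow_mul, (Finset.mem_filter.mp hy).2]
    rw [Finset.sum_congr rfl h1, Finset.sum_const]
    have h2 : ((V.filter (fun y => y ≠ 0 ∧ y ^ d ∈ J)).filter (fun y => y ^ d = u)).card = d := by
      rw [fibre_eq V d J u hu]
      exact fibre_card V d hd ζ hζ hV u (hJ hu)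
    rw [h2, nsmul_eq_mul, hdF, one_mul]
  · rw [Finset.disjoint_left]
    intro y hy hy'
    exact (Finset.mem_filter.mp hy).2.1 (Finset.mem_filter.mp hy').2.1

theorem CJ_inv (V : Finset F) (d : ℕ) (J : Finset F) (e : Bool) (hd : 0 < d)
    (hV : ∀ z : F, z ^ d = 1 → ∀ y ∈ V, z * y ∈ V) (z : F) (hz : z ^ d = 1) :
    ∀ y ∈ CJ V d J e, z * y ∈ CJ V d J e := by
  intro y hy
  have hz0 : z ≠ 0 := by
    rintro rfl
    rw [zero_pow hd.ne'] at hz
    exact zero_ne_one hz
  obtain ⟨hyV, h⟩ := Finset.mem_filter.mp hy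
  refine Finset.mem_filter.mpr ⟨hV z hz y hyV, ?_⟩
  rcases h with ⟨h1, h2⟩ | ⟨h1, h2⟩
  · left
    exact ⟨mul_ne_zero hz0 h1, by rw [mul_pow, hz, one_mul]; exact h2⟩
  · right
    exact ⟨by rw [h1, mul_zero], h2⟩

end Fibres

section Choice
variable {F : Type*} [Field F] [DecidableEq F] [CharP F 2]

theorem exists_J1 (S : Finset F) (j : ℕ) (hj : 1 ≤ j) (hjS : j + 1 ≤ S.card) :
    ∃ J ⊆ S, J.card = j ∧ ps J 1 ≠ 0 := by
  obtain ⟨J0, hJ0S, hJ0⟩ := Finset.exists_subset_card_eq (s := S) (n := j - 1) (by omega)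
  have h1 : ((S \ J0).erase (ps J0 1)).Nonempty := by
    rw [← Finset.card_pos]
    have h2 := Finset.pred_card_le_card_erase (s := S \ J0) (a := ps J0 1)
    have h3 := Finset.card_sdiff_of_subset hJ0S
    omega
  obtain ⟨u, hu⟩ := h1
  obtain ⟨hu1, hu2⟩ := Finset.mem_erase.mp hu
  obtain ⟨hu3, hu4⟩ := Finset.mem_sdiff.mp hu2
  refine ⟨insert u J0, Finset.insert_subset hu3 hJ0S, ?_, ?_⟩
  · rw [Finset.card_insert_of_notMem hu4]; omega
  · unfold ps
    rw [Finset.sum_insert hu4]
    intro h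
    apply hu1
    rw [pow_one] at h
    have := CharTwo.add_self_eq_zero (ps J0 1)
    unfold ps at this ⊢
    linear_combination h - this

theorem exists_J2 (S : Finset F) (j : ℕ) (hj : 2 ≤ j) (hjS : 2 * j + 1 ≤ S.card) :
    ∃ J ⊆ S, J.card = j ∧ ps J 1 ≠ 0 ∧ ps J 3 ≠ ps J 1 ^ 3 := by
  obtain ⟨J0, hJ0S, hJ0, hA⟩ := exists_J1 S (j - 1) (by omega) (by omega)
  set A := ps J0 1 with hAdef
  set B := ps J0 3 with hBdef
  -- polynomial A X^2 + A^2 X + (A^3 + B)
  obtain ⟨A2, hA2⟩ : ∃ a, a = A ^ 2 := ⟨_, rfl⟩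
  obtain ⟨A3, hA3⟩ : ∃ a, a = A ^ 3 + B := ⟨_, rfl⟩
  let p : Polynomial F := Polynomial.C A * Polynomial.X ^ 2 + Polynomial.C A2 * Polynomial.X + Polynomial.C A3
  have hp2 : p.coeff 2 = A := by
    simp [p]
  have hp0 : p ≠ 0 := by
    intro h
    rw [h] at hp2
    simp at hp2
    exact hA hp2.symm
  have hdeg : p.natDegree ≤ 2 := by
    simp only [p]
    compute_degree
  have hroots : p.roots.toFinset.card ≤ 2 :=
    (Multiset.toFinset_card_le _).trans ((Polynomial.card_roots' p).trans hdeg)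
  have h1 : (((S \ J0) \ p.roots.toFinset).erase A).Nonempty := by
    rw [← Finset.card_pos]
    have h2 := Finset.pred_card_le_card_erase (s := (S \ J0) \ p.roots.toFinset) (a := A)
    have h3 := Finset.card_sdiff_of_subset hJ0S
    have h4 := Finset.le_card_sdiff p.roots.toFinset (S \ J0)
    omega
  obtain ⟨u, hu⟩ := h1
  obtain ⟨hu1, hu2⟩ := Finset.mem_erase.mp hu
  obtain ⟨hu3, hu4⟩ := Finset.mem_sdiff.mp hu2
  obtain ⟨hu5, hu6⟩ := Finset.mem_sdiff.mp hu3
  have e1 : ps (insert u J0) 1 = u + A := by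
    unfold ps; rw [Finset.sum_insert hu6, pow_one]; rfl
  have e3 : ps (insert u J0) 3 = u ^ 3 + B := by
    unfold ps; rw [Finset.sum_insert hu6]; rfl
  refine ⟨insert u J0, Finset.insert_subset hu5 hJ0S, ?_, ?_, ?_⟩
  · rw [Finset.card_insert_of_notMem hu6]; omega
  · rw [e1]
    intro h
    apply hu1
    have := CharTwo.add_self_eq_zero A
    linear_combination h - this
  · rw [e1, e3]
    intro h
    apply hu4
    rw [Multiset.mem_toFinset, Polynomial.mem_roots hp0]
    simp only [Polynomial.IsRoot.def, p, Polynomial.eval_add, Polynomial.eval_mul, Polynomial.eval_C,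
      Polynomial.eval_pow, Polynomial.eval_X, hA2, hA3]
    have c1 := CharTwo.add_self_eq_zero (A * u ^ 2)
    have c2 := CharTwo.add_self_eq_zero (A ^ 2 * u)
    have c3 := CharTwo.add_self_eq_zero B
    linear_combination -h - c1 - c2 + c3
end Choice

section CoreB
variable {F : Type*} [Field F] [DecidableEq F] [CharP F 2]

theorem finish (C : Finset F) (ζ : F) (d : ℕ) (hd : 2 ≤ d)
    (hζ : IsPrimitiveRoot ζ d) (hC : ∀ z : F, z ^ d = 1 → ∀ x ∈ C, z * x ∈ C)
    (hp : ps C d ≠ 0) (hT : ∀ t : F, (∀ x ∈ C, x + t ∈ C) → t = 0)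
    (a v : F) (ha : a ≠ 0) (hg : ∀ x ∈ C, a * x + v ∈ C) : a ^ d = 1 ∧ v = 0 := by
  have hζ1 : ζ ^ d = 1 := hζ.pow_eq_one
  have hζ0 : ζ ≠ 0 := hζ.ne_zero (by omega)
  have hζne : ζ ≠ 1 := by
    intro h
    subst h
    have := hζ.dvd_of_pow_eq_one 1 (by simp)
    have := Nat.le_of_dvd one_pos this
    omega
  have hinv : (ζ⁻¹) ^ d = 1 := by rw [inv_pow, hζ1, inv_one]
  have himg : C.image (fun x => a * x + v) = C := by
    apply Finset.eq_of_subset_of_card_le
    · intro y hy
      obtain ⟨x, hx, rfl⟩ := Finset.mem_image.mp hy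
      exact hg x hx
    · rw [Finset.card_image_of_injective]
      intro x y h
      exact mul_right_injective₀ ha (add_left_injective v h)
  have h1 : ∀ x ∈ C, x + (1 - ζ) * v ∈ C := by
    intro x hx
    have hx1 : ζ⁻¹ * x ∈ C := hC _ hinv x hx
    rw [← himg] at hx1
    obtain ⟨y, hy, hy2⟩ := Finset.mem_image.mp hx1
    have hy3 : a * (ζ * y) + v ∈ C := hg _ (hC ζ hζ1 y hy)
    have : x + (1 - ζ) * v = a * (ζ * y) + v := by
      have : ζ * (a * y + v) = x := by
        rw [hy2, ← mul_assoc, mul_inv_cancel₀ hζ0, one_mul]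
      linear_combination -this
    rw [this]
    exact hy3
  have h2 := hT _ h1
  have hv : v = 0 := by
    rcases mul_eq_zero.mp h2 with h | h
    · exact absurd (sub_eq_zero.mp h).symm hζne
    · exact h
  subst hv
  refine ⟨?_, rfl⟩
  have h3 := ps_scale C a ha (fun x hx => by simpa using hg x hx) d
  have h4 : (1 - a ^ d) * ps C d = 0 := by rw [sub_mul, one_mul, ← h3, sub_self]
  rcases mul_eq_zero.mp h4 with h | h
  · exact (sub_eq_zero.mp h).symm
  · exact absurd h hp

theorem coreB (V : Finset F) (h0 : (0 : F) ∈ V) (hadd : ∀ x ∈ V, ∀ y ∈ V, x + y ∈ V)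
    (d : ℕ) (hd : 2 ≤ d) (hdF : (d : F) = 1) (ζ : F) (hζ : IsPrimitiveRoot ζ d)
    (hV : ∀ z : F, z ^ d = 1 → ∀ y ∈ V, z * y ∈ V) (j : ℕ) (hj : 1 ≤ j) (e : Bool)
    (hm : 2 * (d * j + (if e then 1 else 0)) ≤ V.card)
    (hne : ¬ (j = 1 ∧ e = true ∧ ∃ b, d + 1 = 2 ^ b)) :
    ∃ C ⊆ V, C.card = d * j + (if e then 1 else 0) ∧
      (∀ z : F, z ^ d = 1 → ∀ x ∈ C, z * x ∈ C) ∧
      ∀ a v : F, a ≠ 0 → (∀ x ∈ C, a * x + v ∈ C) → a ^ d = 1 ∧ v = 0 := by
  have hd0 : 0 < d := by omega
  have hS := card_SV V h0 d hd0 ζ hζ hV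
  set S := SV V d with hSdef
  have hodd : Odd d := by
    rcases Nat.even_or_odd d with h | h
    · exfalso
      obtain ⟨r, hr⟩ := h
      have : (d : F) = 0 := by
        rw [hr]; push_cast; exact CharTwo.add_self_eq_zero _
      rw [this] at hdF
      exact zero_ne_one hdF
    · exact h
  -- V.card is even
  have hVeven : 2 ∣ V.card := by
    have hcard : 1 < V.card := by
      have : 1 ≤ d * j := Nat.mul_pos hd0 hj
      omega
    obtain ⟨t, htV, ht⟩ := Finset.exists_mem_ne hcard 0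
    have := card_even_of_translate V t ht (fun x hx => hadd x hx t htV)
    rw [ps_zero] at this
    exact (CharP.cast_eq_zero_iff F 2 _).mp this
  have h2j : 2 * j ≤ S.card := by
    by_contra hcon
    push Not at hcon
    have : d * (S.card + 1) ≤ d * (2 * j) := Nat.mul_le_mul_left d hcon
    have h3 : d * (S.card + 1) = d * S.card + d := by ring
    have h4 : d * (2 * j) = 2 * (d * j) := by ring
    omega
  have hSodd : S.card % 2 = 1 := by
    obtain ⟨r, hr⟩ := hodd
    obtain ⟨q, hq⟩ := hVeven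
    rcases Nat.mod_two_eq_zero_or_one S.card with h | h
    · exfalso
      obtain ⟨s, hs⟩ := Nat.dvd_of_mod_eq_zero h
      rw [hs, hq] at hS
      have : d * (2 * s) = 2 * (d * s) := by ring
      omega
    · exact h
  have h2j1 : 2 * j + 1 ≤ S.card := by omega
  -- size of d
  obtain ⟨n, hn1, hn2⟩ : ∃ n, 2 ^ n ≤ 2 * d ∧ d < 2 ^ n := by
    refine ⟨Nat.size d, ?_, Nat.lt_size_self d⟩
    have h1 : 0 < Nat.size d := Nat.size_pos.mpr hd0
    have h2 : 2 ^ (Nat.size d - 1) ≤ d := by
      by_contra hcon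
      push Not at hcon
      have := Nat.size_le.mpr hcon
      omega
    have h3 : 2 ^ Nat.size d = 2 * 2 ^ (Nat.size d - 1) := by
      rw [← pow_succ', Nat.sub_add_cancel h1]
    omega
  have fin : ∀ J ⊆ S, J.card = j → ps J 1 ≠ 0 →
      (∀ t : F, (∀ x ∈ CJ V d J e, x + t ∈ CJ V d J e) → t = 0) →
      ∃ C ⊆ V, C.card = d * j + (if e then 1 else 0) ∧
      (∀ z : F, z ^ d = 1 → ∀ x ∈ C, z * x ∈ C) ∧
      ∀ a v : F, a ≠ 0 → (∀ x ∈ C, a * x + v ∈ C) → a ^ d = 1 ∧ v = 0 := by
    intro J hJS hJ hp hT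
    have hps : ps (CJ V d J e) d = ps J 1 := by
      have := CJ_ps V d hd0 ζ hζ hV J hJS e 1 one_pos hdF
      rwa [one_mul] at this
    refine ⟨CJ V d J e, Finset.filter_subset _ _, ?_, ?_, ?_⟩
    · rw [CJ_card V h0 d hd0 ζ hζ hV J hJS e, hJ]
    · intro z hz
      exact CJ_inv V d J e hd0 hV z hz
    · intro a v ha hg
      exact finish (CJ V d J e) ζ d hd hζ (fun z hz => CJ_inv V d J e hd0 hV z hz)
        (by rw [hps]; exact hp) hT a v ha hg
  have hζinv : ∀ J : Finset F, ∀ x ∈ CJ V d J e, ζ * x ∈ CJ V d J e :=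
    fun J => CJ_inv V d J e hd0 hV ζ hζ.pow_eq_one
  by_cases hpow : d = 2 ^ n - 1
  · -- d + 1 a power of two
    have hn : 2 ≤ n := by
      by_contra hcon
      have : 2 ^ n ≤ 2 ^ 1 := Nat.pow_le_pow_right (by norm_num) (by omega)
      omega
    rcases Nat.lt_or_ge j 2 with hj2 | hj2
    · have hj1 : j = 1 := by omega
      cases e with
      | true =>
        exact absurd ⟨hj1, rfl, n, by omega⟩ hne
      | false =>
        obtain ⟨J, hJS, hJ, hp⟩ := exists_J1 S j hj (by omega)
        refine fin J hJS hJ hp ?_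
        intro t hT
        by_contra ht
        have h1 := card_even_of_translate _ t ht hT
        rw [ps_zero, CJ_card V h0 d hd0 ζ hζ hV J hJS false, hJ, hj1] at h1
        simp [hdF] at h1
    · obtain ⟨J, hJS, hJ, hp, hp3⟩ := exists_J2 S j hj2 h2j1
      refine fin J hJS hJ hp ?_
      intro t hT
      by_contra ht
      have hps : ps (CJ V d J e) d = ps J 1 := by
        have := CJ_ps V d hd0 ζ hζ hV J hJS e 1 one_pos hdF
        rwa [one_mul] at this
      have hps3 : ps (CJ V d J e) (3 * d) = ps J 3 :=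
        CJ_ps V d hd0 ζ hζ hV J hJS e 3 (by norm_num) hdF
      have h1 := trans_B2 (CJ V d J e) ζ d n hn hpow hζ (hζinv J) (by rw [hps]; exact hp) t ht hT
      rw [hps, hps3] at h1
      exact hp3 h1
  · obtain ⟨J, hJS, hJ, hp⟩ := exists_J1 S j hj (by omega)
    refine fin J hJS hJ hp ?_
    intro t hT
    have hps : ps (CJ V d J e) d = ps J 1 := by
      have := CJ_ps V d hd0 ζ hζ hV J hJS e 1 one_pos hdF
      rwa [one_mul] at this
    exact noTrans_B1 (CJ V d J e) ζ d n hd0 hζ (hζinv J) (by omega) (by omega)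
      (by rw [hps]; exact hp) t hT

end CoreB

section CoreA
variable {F : Type*} [Field F] [DecidableEq F] [CharP F 2]

theorem image_affine (C : Finset F) (a v : F) (ha : a ≠ 0) (hg : ∀ x ∈ C, a * x + v ∈ C) :
    C.image (fun x => a * x + v) = C := by
  apply Finset.eq_of_subset_of_card_le
  · intro y hy
    obtain ⟨x, hx, rfl⟩ := Finset.mem_image.mp hy
    exact hg x hx
  · rw [Finset.card_image_of_injective]
    intro x y h
    exact mul_right_injective₀ ha (add_left_injective v h)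

theorem sum_affine (C : Finset F) (a v : F) (ha : a ≠ 0) (hg : ∀ x ∈ C, a * x + v ∈ C) (f : F → F) :
    ∑ x ∈ C, f x = ∑ x ∈ C, f (a * x + v) := by
  conv_lhs => rw [← image_affine C a v ha hg]
  rw [Finset.sum_image]
  intro x _ y _ h
  exact mul_right_injective₀ ha (add_left_injective v h)

theorem ps_one_affine (C : Finset F) (a v : F) (ha : a ≠ 0) (hg : ∀ x ∈ C, a * x + v ∈ C) :
    ps C 1 = a * ps C 1 + (C.card : F) * v := by
  have h := sum_affine C a v ha hg (fun x => x)
  have h1 : ps C 1 = ∑ x ∈ C, x := by simp [ps]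
  rw [h1]
  conv_lhs => rw [h]
  rw [Finset.sum_add_distrib, Finset.mul_sum, Finset.sum_const, nsmul_eq_mul]

theorem coreA1 (V : Finset F) (m : ℕ) (hm4 : 4 ≤ m) (hmeven : Even m) (hm : 2 * m ≤ V.card)
    (hadd : ∀ x ∈ V, ∀ y ∈ V, x + y ∈ V) :
    ∃ C ⊆ V, C.card = m ∧ ∀ a v : F, a ≠ 0 → (∀ x ∈ C, a * x + v ∈ C) → a = 1 ∧ v = 0 := by
  obtain ⟨D, hDV, hD, hs⟩ := exists_J1 V (m - 2) (by omega) (by omega)
  set s := ps D 1 with hsdef
  have h1 : ∃ z ∈ V, z ∉ D ∪ D.image (fun y => y + s) := by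
    apply Finset.exists_mem_notMem_of_card_lt_card
    have h2 := Finset.card_union_le D (D.image (fun y => y + s))
    have h3 := Finset.card_image_le (s := D) (f := fun y => y + s)
    omega
  obtain ⟨z, hzV, hz⟩ := h1
  rw [Finset.mem_union, not_or] at hz
  obtain ⟨hz1, hz2⟩ := hz
  set C0 := insert z D with hC0
  have hC0card : C0.card = m - 1 := by
    rw [hC0, Finset.card_insert_of_notMem hz1]; omega
  have hs0 : ps C0 1 = z + s := by
    rw [hC0]; unfold ps; rw [Finset.sum_insert hz1, pow_one]; rfl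
  have hs0n : z + s ∉ C0 := by
    rw [hC0, Finset.mem_insert, not_or]
    refine ⟨fun h => hs ?_, fun h => hz2 ?_⟩
    · linear_combination h
    · refine Finset.mem_image.mpr ⟨z + s, h, ?_⟩
      have := CharTwo.add_self_eq_zero s
      linear_combination this
  have h2 : ∃ x ∈ V, x ∉ insert (z + s) C0 := by
    apply Finset.exists_mem_notMem_of_card_lt_card
    have h3 := Finset.card_insert_le (z + s) C0
    omega
  obtain ⟨x, hxV, hx⟩ := h2
  rw [Finset.mem_insert, not_or] at hx
  obtain ⟨hx1, hx2⟩ := hx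
  have hCcard : (insert x C0).card = m := by
    rw [Finset.card_insert_of_notMem hx2]; omega
  have hp : ps (insert x C0) 1 = x + (z + s) := by
    have : ps (insert x C0) 1 = x + ps C0 1 := by
      unfold ps; rw [Finset.sum_insert hx2, pow_one]
    rw [this, hs0]
  have hp0 : ps (insert x C0) 1 ≠ 0 := by
    rw [hp]
    intro h
    apply hx1
    have := CharTwo.add_self_eq_zero (z + s)
    linear_combination h - this
  have hmF : (m : F) = 0 := by
    obtain ⟨r, hr⟩ := hmeven
    rw [hr]; push_cast; exact CharTwo.add_self_eq_zero _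
  refine ⟨insert x C0, ?_, hCcard, ?_⟩
  · intro y hy
    rcases Finset.mem_insert.mp hy with rfl | hy
    · exact hxV
    · rcases Finset.mem_insert.mp hy with rfl | hy
      · exact hzV
      · exact hDV hy
  · intro a v ha hg
    have h3 := ps_one_affine _ a v ha hg
    rw [hCcard, hmF, zero_mul, add_zero] at h3
    have ha1 : a = 1 := by
      have : (a - 1) * ps (insert x C0) 1 = 0 := by linear_combination -h3
      rcases mul_eq_zero.mp this with h | h
      · exact sub_eq_zero.mp h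
      · exact absurd h hp0
    refine ⟨ha1, ?_⟩
    subst ha1
    by_contra hv
    have hT : ∀ y ∈ insert x C0, y + v ∈ insert x C0 := by
      intro y hy
      have := hg y hy
      rwa [one_mul] at this
    have h4 := ps_translate _ v hT 2
    have h5 := card_even_of_translate _ v hv hT
    have h6 : ps (insert x C0) 2 = ps (insert x C0) 1 ^ 2 := ps_two_mul _ 1
    simp only [show 2 ^ 2 - 1 = 3 from rfl, Finset.sum_range_succ, Finset.sum_range_zero, h5, h6] at h4
    have h7 : v * ps (insert x C0) 1 * (v + ps (insert x C0) 1) = 0 := by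
      simp only [show 3 - 1 = 2 from rfl, show 3 - 2 = 1 from rfl] at h4
      linear_combination h4
    have h8 : v + ps (insert x C0) 1 = 0 := by
      rcases mul_eq_zero.mp h7 with h | h
      · exact absurd h (mul_ne_zero hv hp0)
      · exact h
    have h9 : x + v = z + s := by
      rw [hp] at h8
      have := CharTwo.add_self_eq_zero (z + s)
      linear_combination h8 - this
    have h10 := hT x (Finset.mem_insert_self _ _)
    rw [h9] at h10
    rcases Finset.mem_insert.mp h10 with h | h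
    · exact hx1 h.symm
    · exact hs0n h

theorem coreA2 (V : Finset F) (m : ℕ) (hm3 : 3 ≤ m) (hmodd : Odd m) (hm : 2 * m ≤ V.card)
    (h0 : (0 : F) ∈ V) (hV8 : 12 ≤ V.card ∨ V.card = 8) :
    ∃ C ⊆ V, C.card = m ∧ ∀ a v : F, a ≠ 0 → (∀ x ∈ V, a * x ∈ V) → (∀ x ∈ C, a * x + v ∈ C) →
      a = 1 ∧ v = 0 := by
  obtain ⟨C0, hC0V, hC0, hs⟩ := exists_J1 V (m - 1) (by omega) (by omega)
  set s := ps C0 1 with hsdef
  have hmF : (m : F) = 1 := by
    obtain ⟨r, hr⟩ := hmodd
    rw [hr]; push_cast; rw [CharTwo.two_eq_zero]; simp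
  have hm1F : ((m - 1 : ℕ) : F) = 0 := by
    obtain ⟨r, hr⟩ := hmodd
    have : m - 1 = 2 * r := by omega
    rw [this]; push_cast; rw [CharTwo.two_eq_zero]; simp
  obtain ⟨c3, hc3⟩ : ∃ a, a = s ^ 3 + ps C0 3 := ⟨_, rfl⟩
  obtain ⟨c5, hc5⟩ : ∃ a, a = s ^ 5 + ps C0 5 := ⟨_, rfl⟩
  obtain ⟨s2, hs2⟩ : ∃ a, a = s ^ 2 := ⟨_, rfl⟩
  obtain ⟨s4, hs4⟩ : ∃ a, a = s ^ 4 := ⟨_, rfl⟩
  let p3 : Polynomial F := Polynomial.C s * Polynomial.X ^ 2 + Polynomial.C s2 * Polynomial.X + Polynomial.C c3
  let p5 : Polynomial F := Polynomial.C s * Polynomial.X ^ 4 + Polynomial.C s4 * Polynomial.X + Polynomial.C c5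
  have hp3c : p3.coeff 2 = s := by simp [p3]
  have hp5c : p5.coeff 4 = s := by simp [p5]
  have hp30 : p3 ≠ 0 := by
    intro h; rw [h] at hp3c; simp at hp3c; exact hs hp3c.symm
  have hp50 : p5 ≠ 0 := by
    intro h; rw [h] at hp5c; simp at hp5c; exact hs hp5c.symm
  have hdeg3 : p3.natDegree ≤ 2 := by simp only [p3]; compute_degree
  have hdeg5 : p5.natDegree ≤ 4 := by simp only [p5]; compute_degree
  have hr3 : p3.roots.toFinset.card ≤ 2 :=
    (Multiset.toFinset_card_le _).trans ((Polynomial.card_roots' p3).trans hdeg3)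
  have hr5 : p5.roots.toFinset.card ≤ 4 :=
    (Multiset.toFinset_card_le _).trans ((Polynomial.card_roots' p5).trans hdeg5)
  have hx : ∃ x ∈ V, x ∉ C0 ∧ p3.eval (x + s) ≠ 0 ∧ (V.card = 8 ∨ p5.eval (x + s) ≠ 0) := by
    rcases hV8 with h12 | h8
    · have : ∃ x ∈ V, x ∉ C0 ∪ (p3.roots.toFinset ∪ p5.roots.toFinset).image (fun y => y + s) := by
        apply Finset.exists_mem_notMem_of_card_lt_card
        have h2 := Finset.card_union_le C0 ((p3.roots.toFinset ∪ p5.roots.toFinset).image (fun y => y + s))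
        have h3 := Finset.card_image_le (s := p3.roots.toFinset ∪ p5.roots.toFinset) (f := fun y => y + s)
        have h4 := Finset.card_union_le p3.roots.toFinset p5.roots.toFinset
        omega
      obtain ⟨x, hxV, hx⟩ := this
      rw [Finset.mem_union, not_or] at hx
      refine ⟨x, hxV, hx.1, fun h => hx.2 ?_, Or.inr fun h => hx.2 ?_⟩
      · refine Finset.mem_image.mpr ⟨x + s, Finset.mem_union_left _ ?_, ?_⟩
        · rw [Multiset.mem_toFinset, Polynomial.mem_roots hp30]; exact h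
        · have := CharTwo.add_self_eq_zero s
          linear_combination this
      · refine Finset.mem_image.mpr ⟨x + s, Finset.mem_union_right _ ?_, ?_⟩
        · rw [Multiset.mem_toFinset, Polynomial.mem_roots hp50]; exact h
        · have := CharTwo.add_self_eq_zero s
          linear_combination this
    · have : ∃ x ∈ V, x ∉ C0 ∪ (p3.roots.toFinset).image (fun y => y + s) := by
        apply Finset.exists_mem_notMem_of_card_lt_card
        have h2 := Finset.card_union_le C0 ((p3.roots.toFinset).image (fun y => y + s))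
        have h3 := Finset.card_image_le (s := p3.roots.toFinset) (f := fun y => y + s)
        have hm3' : m = 3 := by
          obtain ⟨r, hr⟩ := hmodd; omega
        omega
      obtain ⟨x, hxV, hx⟩ := this
      rw [Finset.mem_union, not_or] at hx
      refine ⟨x, hxV, hx.1, fun h => hx.2 ?_, Or.inl h8⟩
      refine Finset.mem_image.mpr ⟨x + s, ?_, ?_⟩
      · rw [Multiset.mem_toFinset, Polynomial.mem_roots hp30]; exact h
      · have := CharTwo.add_self_eq_zero s
        linear_combination this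
  obtain ⟨x, hxV, hxC0, hx3, hx5⟩ := hx
  have hCcard : (insert x C0).card = m := by
    rw [Finset.card_insert_of_notMem hxC0]; omega
  obtain ⟨σ, hσ⟩ : ∃ a, a = x + s := ⟨_, rfl⟩
  have hp1 : ps (insert x C0) 1 = σ := by
    rw [hσ]; unfold ps; rw [Finset.sum_insert hxC0, pow_one]; rfl
  have hxσ : x + σ = s := by
    rw [hσ]; have := CharTwo.add_self_eq_zero x
    linear_combination this
  have q1 : ps C0 1 = ∑ y ∈ C0, y := by simp [ps]
  have q2 : ps C0 2 = s ^ 2 := ps_two_mul C0 1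
  have q4 : ps C0 4 = s ^ 4 := by
    have : (4 : ℕ) = 2 * 2 := by norm_num
    rw [this, ps_two_mul, q2]; ring
  have e3 : ∑ y ∈ insert x C0, (y + σ) ^ 3 = p3.eval (x + s) := by
    rw [Finset.sum_insert hxC0, hxσ]
    have : ∀ y ∈ C0, (y + σ) ^ 3 = y ^ 3 + σ * y ^ 2 + σ ^ 2 * y ^ 1 + σ ^ 3 := by
      intro y _
      have h2 : (2 : F) = 0 := CharTwo.two_eq_zero
      linear_combination (y ^ 2 * σ + y * σ ^ 2) * h2
    rw [Finset.sum_congr rfl this]
    simp only [Finset.sum_add_distrib, ← Finset.mul_sum, Finset.sum_const, nsmul_eq_mul, hC0, hm1F]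
    simp only [p3, Polynomial.eval_add, Polynomial.eval_mul, Polynomial.eval_C,
      Polynomial.eval_pow, Polynomial.eval_X, hs2, hc3]
    change s ^ 3 + (ps C0 3 + σ * ps C0 2 + σ ^ 2 * ps C0 1 + 0 * σ ^ 3) = _
    rw [q2, ← hsdef, hσ]
    ring
  have e5 : ∑ y ∈ insert x C0, (y + σ) ^ 5 = p5.eval (x + s) := by
    rw [Finset.sum_insert hxC0, hxσ]
    have : ∀ y ∈ C0, (y + σ) ^ 5 = y ^ 5 + σ * y ^ 4 + σ ^ 4 * y ^ 1 + σ ^ 5 := by
      intro y _
      have h2 : (2 : F) = 0 := CharTwo.two_eq_zero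
      linear_combination (2 * y ^ 4 * σ + 5 * y ^ 3 * σ ^ 2 + 5 * y ^ 2 * σ ^ 3 + 2 * y * σ ^ 4) * h2
    rw [Finset.sum_congr rfl this]
    simp only [Finset.sum_add_distrib, ← Finset.mul_sum, Finset.sum_const, nsmul_eq_mul, hC0, hm1F]
    simp only [p5, Polynomial.eval_add, Polynomial.eval_mul, Polynomial.eval_C,
      Polynomial.eval_pow, Polynomial.eval_X, hs4, hc5]
    change s ^ 5 + (ps C0 5 + σ * ps C0 4 + σ ^ 4 * ps C0 1 + 0 * σ ^ 5) = _
    rw [q4, ← hsdef, hσ]
    ring
  refine ⟨insert x C0, ?_, hCcard, ?_⟩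
  · intro y hy
    rcases Finset.mem_insert.mp hy with rfl | hy
    · exact hxV
    · exact hC0V hy
  · intro a v ha haV hg
    have h3 := ps_one_affine _ a v ha hg
    rw [hCcard, hmF, one_mul, hp1] at h3
    have hv : v = (1 - a) * σ := by linear_combination -h3
    have key : ∀ i : ℕ, ∑ y ∈ insert x C0, (y + σ) ^ i = a ^ i * ∑ y ∈ insert x C0, (y + σ) ^ i := by
      intro i
      conv_lhs => rw [sum_affine _ a v ha hg (fun y => (y + σ) ^ i)]
      rw [Finset.mul_sum]
      refine Finset.sum_congr rfl fun y _ => ?_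
      rw [← mul_pow]
      congr 1
      rw [hv]
      have h2 : (2 : F) = 0 := CharTwo.two_eq_zero
      linear_combination (σ - a * σ) * h2
    have a3 : a ^ 3 = 1 := by
      have h := key 3
      rw [e3] at h
      have h' : (a ^ 3 - 1) * p3.eval (x + s) = 0 := by linear_combination -h
      rcases mul_eq_zero.mp h' with h | h
      · exact sub_eq_zero.mp h
      · exact absurd h hx3
    have ha1 : a = 1 := by
      rcases hx5 with h8 | hx5
      · have h7 : a ^ 7 = 1 := by
          have himg : (V.erase 0).image (fun y => a * y) = V.erase 0 := by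
            apply Finset.eq_of_subset_of_card_le
            · intro y hy
              obtain ⟨w, hw, rfl⟩ := Finset.mem_image.mp hy
              obtain ⟨hw0, hwV⟩ := Finset.mem_erase.mp hw
              exact Finset.mem_erase.mpr ⟨mul_ne_zero ha hw0, haV w hwV⟩
            · rw [Finset.card_image_of_injective _ (mul_right_injective₀ ha)]
          have hprod : ∏ y ∈ V.erase 0, y = a ^ 7 * ∏ y ∈ V.erase 0, y := by
            conv_lhs => rw [← himg]
            rw [Finset.prod_image (fun u _ w _ h => mul_right_injective₀ ha h), Finset.prod_mul_distrib,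
              Finset.prod_const, Finset.card_erase_of_mem h0, h8]
          have hne : ∏ y ∈ V.erase 0, y ≠ 0 := by
            rw [Finset.prod_ne_zero_iff]
            intro y hy
            exact (Finset.mem_erase.mp hy).1
          have h' : (a ^ 7 - 1) * ∏ y ∈ V.erase 0, y = 0 := by linear_combination -hprod
          rcases mul_eq_zero.mp h' with h | h
          · exact sub_eq_zero.mp h
          · exact absurd h hne
        calc a = a ^ 7 := by
              rw [show a ^ 7 = (a ^ 3) ^ 2 * a by ring, a3]; ring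
          _ = 1 := h7
      · have h := key 5
        rw [e5] at h
        have h' : (a ^ 5 - 1) * p5.eval (x + s) = 0 := by linear_combination -h
        have h5 : a ^ 5 = 1 := by
          rcases mul_eq_zero.mp h' with h | h
          · exact sub_eq_zero.mp h
          · exact absurd h hx5
        calc a = a * (a ^ 5) := by rw [h5, mul_one]
          _ = (a ^ 3) ^ 2 := by ring
          _ = 1 := by rw [a3]; ring
    refine ⟨ha1, ?_⟩
    rw [hv, ha1]; ring

end CoreA

section Core
variable {F : Type*} [Field F] [DecidableEq F]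

theorem exists_primitive [Fintype F] (d : ℕ) (hd : d ∣ Fintype.card F - 1) :
    ∃ ζ : F, IsPrimitiveRoot ζ d := by
  obtain ⟨g, hg⟩ := IsCyclic.exists_ofOrder_eq_natCard (α := Fˣ)
  have hcard : Nat.card Fˣ = Fintype.card F - 1 := by
    rw [Nat.card_eq_fintype_card, Fintype.card_units]
  have hpos : 0 < Nat.card Fˣ := Nat.card_pos
  have hd' : d ∣ Nat.card Fˣ := hcard ▸ hd
  obtain ⟨r, hr⟩ := hd'
  have hr0 : r ≠ 0 := by rintro rfl; rw [mul_zero] at hr; omega
  have hdr : orderOf (g ^ r) = d := by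
    rw [orderOf_pow_of_dvd hr0 (by rw [hg, hr]; exact Dvd.intro_left d rfl), hg, hr]
    exact Nat.mul_div_cancel d (Nat.pos_of_ne_zero hr0)
  refine ⟨((g ^ r : Fˣ) : F), ?_⟩
  rw [IsPrimitiveRoot.coe_units_iff, ← hdr]
  exact IsPrimitiveRoot.orderOf _

/-- The combinatorial core: inside a finite additive group `V` (closed under the `d`-th roots of
unity) there is an `m`-subset whose affine stabiliser is exactly the group of `d`-th roots of unity. -/
theorem core [CharP F 2] [Fintype F] (V : Finset F) (h0 : (0 : F) ∈ V) (hadd : ∀ x ∈ V, ∀ y ∈ V, x + y ∈ V)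
    (hVpow : ∃ r, V.card = 2 ^ r) (d : ℕ) (hd : d ∣ Fintype.card F - 1) (hdodd : Odd d)
    (hV : ∀ z : F, z ^ d = 1 → ∀ y ∈ V, z * y ∈ V) (m : ℕ) (hm3 : 3 ≤ m) (hm : 2 * m ≤ V.card)
    (hmod : d ∣ m ∨ d ∣ m - 1) (hne : ¬ (m = d + 1 ∧ ∃ b, d + 1 = 2 ^ b)) :
    ∃ C ⊆ V, C.card = m ∧ (∀ z : F, z ^ d = 1 → ∀ x ∈ C, z * x ∈ C) ∧
      ∀ a v : F, a ≠ 0 → (∀ x ∈ V, a * x ∈ V) → (∀ x ∈ C, a * x + v ∈ C) → a ^ d = 1 ∧ v = 0 := by
  have hdF : (d : F) = 1 := by
    obtain ⟨r, hr⟩ := hdodd
    rw [hr]; push_cast; rw [CharTwo.two_eq_zero]; simp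
  have hd0 : 0 < d := by
    obtain ⟨r, hr⟩ := hdodd; omega
  rcases Nat.lt_or_ge d 2 with hd2 | hd2
  · have hd1 : d = 1 := by omega
    subst hd1
    rcases Nat.even_or_odd m with hme | hmo
    · obtain ⟨C, hCV, hC, h⟩ := coreA1 V m (by
        obtain ⟨r, hr⟩ := hme; omega) hme hm hadd
      refine ⟨C, hCV, hC, ?_, ?_⟩
      · intro z hz x hx
        rw [pow_one] at hz
        rw [hz, one_mul]; exact hx
      · intro a v ha _ hg
        obtain ⟨h1, h2⟩ := h a v ha hg
        exact ⟨by rw [h1, one_pow], h2⟩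
    · obtain ⟨r, hr⟩ := hVpow
      have hV8 : 12 ≤ V.card ∨ V.card = 8 := by
        rw [hr] at hm ⊢
        have h3 : 3 ≤ r := by
          by_contra hcon
          have : 2 ^ r ≤ 2 ^ 2 := Nat.pow_le_pow_right (by norm_num) (by omega)
          omega
        rcases Nat.lt_or_ge 3 r with h | h
        · left
          have : 2 ^ 4 ≤ 2 ^ r := Nat.pow_le_pow_right (by norm_num) h
          omega
        · right
          have : r = 3 := by omega
          rw [this]; norm_num
      obtain ⟨C, hCV, hC, h⟩ := coreA2 V m hm3 hmo hm h0 hV8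
      refine ⟨C, hCV, hC, ?_, ?_⟩
      · intro z hz x hx
        rw [pow_one] at hz
        rw [hz, one_mul]; exact hx
      · intro a v ha haV hg
        obtain ⟨h1, h2⟩ := h a v ha haV hg
        exact ⟨by rw [h1, one_pow], h2⟩
  · obtain ⟨ζ, hζ⟩ := exists_primitive (F := F) d hd
    have : ∃ (j : ℕ) (e : Bool), m = d * j + (if e then 1 else 0) := by
      rcases hmod with ⟨j, hj⟩ | ⟨j, hj⟩
      · exact ⟨j, false, by simpa using hj⟩
      · exact ⟨j, true, by simp; omega⟩
    obtain ⟨j, e, hje⟩ := this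
    have hj : 1 ≤ j := by
      rcases Nat.eq_zero_or_pos j with h | h
      · subst h
        cases e <;> simp at hje <;> omega
      · exact h
    obtain ⟨C, hCV, hC, h1, h2⟩ := coreB V h0 hadd d hd2 hdF ζ hζ hV j hj e (by rw [← hje]; exact hm) (by
      rintro ⟨rfl, rfl, hb⟩
      exact hne ⟨by simp at hje; omega, hb⟩)
    exact ⟨C, hCV, by rw [hC, hje], h1, fun a v ha _ hg => h2 a v ha hg⟩

end Core
end Pool.Agent.Lib.MP_3242d6_co
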