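import Mathlib

/-!
# Definitions for MP_3242d6_co

`AGL(1, F)`, stabilizers of subsets, the subgroups `S_{d,H}` and the counts `N(S, k)`.
-/

namespace Pool.Agent.Lib.MP_3242d6_co

/-- `AGL(1, F)`: the group of all maps `x ↦ a x + b` of `F` with `a ≠ 0`. -/
def AGL1 (F : Type*) [Field F] : Subgroup (Equiv.Perm F) where
  carrier := {σ | ∃ a b : F, a ≠ 0 ∧ ∀ x, σ x = a * x + b}
  mul_mem' := by
    rintro σ τ ⟨a, b, ha, h⟩ ⟨c, d, hc, h'⟩
    exact ⟨a * c, a * d + b, mul_ne_zero ha hc, fun x => by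
      rw [Equiv.Perm.mul_apply, h', h]; ring⟩
  one_mem' := ⟨1, 0, one_ne_zero, fun x => by simp⟩
  inv_mem' := by
    rintro σ ⟨a, b, ha, h⟩
    refine ⟨a⁻¹, -(a⁻¹ * b), inv_ne_zero ha, fun x => ?_⟩
    rw [Equiv.Perm.inv_eq_iff_eq, h]
    field_simp
    ring

/-- The stabilizer of `B ⊆ F` in `AGL(1, F)`: all `σ` in `AGL(1, F)` with `σ(B) = B`. -/
def stab {F : Type*} [Field F] (B : Set F) : Subgroup (Equiv.Perm F) where
  carrier := {σ | σ ∈ AGL1 F ∧ σ '' B = B}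
  mul_mem' := by
    rintro σ τ ⟨h1, h2⟩ ⟨h3, h4⟩
    refine ⟨mul_mem h1 h3, ?_⟩
    rw [Equiv.Perm.coe_mul, Set.image_comp, h4, h2]
  one_mem' := ⟨one_mem _, by simp⟩
  inv_mem' := by
    rintro σ ⟨h1, h2⟩
    refine ⟨inv_mem h1, ?_⟩
    conv_lhs => rw [← h2]
    rw [← Set.image_comp, ← Equiv.Perm.coe_mul]
    simp

/-- The subgroup `S_{d,H} = {x ↦ ζ x + h : ζ ^ d = 1, h ∈ H}`, for an additive subgroup `H` with
`ζ H = H` for every `d`-th root of unity `ζ`. -/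
def S {F : Type*} [Field F] (d : ℕ) (H : AddSubgroup F)
    (hH : ∀ ζ : F, ζ ^ d = 1 → (fun h => ζ * h) '' (H : Set F) = H) : Subgroup (Equiv.Perm F) where
  carrier := {σ | ∃ ζ h : F, ζ ^ d = 1 ∧ h ∈ H ∧ ∀ x, σ x = ζ * x + h}
  mul_mem' := by
    rintro σ τ ⟨a, b, ha, hb, h⟩ ⟨c, e, hc, he, h'⟩
    refine ⟨a * c, a * e + b, by rw [mul_pow, ha, hc, one_mul], ?_, fun x => by
      rw [Equiv.Perm.mul_apply, h', h]; ring⟩
    have : a * e ∈ (H : Set F) := by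
      rw [← hH a ha]; exact ⟨e, he, rfl⟩
    exact H.add_mem this hb
  one_mem' := ⟨1, 0, one_pow d, H.zero_mem, fun x => by simp⟩
  inv_mem' := by
    rintro σ ⟨a, b, ha, hb, h⟩
    have ha0 : a ≠ 0 := by
      rintro rfl
      have h1 : σ 0 = σ 1 := by rw [h, h]; simp
      exact zero_ne_one (σ.injective h1)
    have hainv : (a⁻¹) ^ d = 1 := by rw [inv_pow, ha, inv_one]
    refine ⟨a⁻¹, -(a⁻¹ * b), hainv, ?_, fun x => ?_⟩
    · have : a⁻¹ * b ∈ (H : Set F) := by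
        rw [← hH _ hainv]; exact ⟨b, hb, rfl⟩
      exact H.neg_mem this
    · rw [Equiv.Perm.inv_eq_iff_eq, h]
      field_simp
      ring

/-- `N(S, k)`: the number of `k`-subsets of `F` whose stabilizer in `AGL(1, F)` is exactly `S`. -/
noncomputable def N {F : Type*} [Field F] (S : Subgroup (Equiv.Perm F)) (k : ℕ) : ℕ :=
  Set.ncard {B : Set F | B.ncard = k ∧ stab B = S}

end Pool.Agent.Lib.MP_3242d6_co
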