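import Mathlib
import Pool.Agent.Lib.MP_3242d6_co.Defs
import Pool.Agent.Lib.MP_3242d6_co.Core

namespace Pool.Agent.Lib.MP_3242d6_co

open Finset

/-- the field `H' = {x : x H ⊆ H}` of a finite field -/
def Hp {F : Type*} [Field F] [Finite F] (H : AddSubgroup F) : Subfield F where
  carrier := {x | ∀ h ∈ H, x * h ∈ H}
  mul_mem' := by
    intro a b ha hb h hh
    rw [mul_assoc]; exact ha _ (hb _ hh)
  one_mem' := by
    intro h hh; rw [one_mul]; exact hh
  add_mem' := by
    intro a b ha hb h hh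
    rw [add_mul]; exact H.add_mem (ha _ hh) (hb _ hh)
  zero_mem' := by
    intro h _; rw [zero_mul]; exact H.zero_mem
  neg_mem' := by
    intro a ha h hh
    rw [neg_mul]; exact H.neg_mem (ha _ hh)
  inv_mem' := by
    intro a ha h hh
    by_cases h0 : a = 0
    · subst h0; rw [inv_zero, zero_mul]; exact H.zero_mem
    · have hinj : Function.Injective (fun y : H => (⟨a * y, ha _ y.2⟩ : H)) := by
        intro y z hyz
        have := congrArg Subtype.val hyz
        exact Subtype.ext (mul_right_injective₀ h0 this)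
      obtain ⟨y, hy⟩ := Finite.surjective_of_injective hinj ⟨h, hh⟩
      have hy' : a * y = h := congrArg Subtype.val hy
      rw [← hy', ← mul_assoc, inv_mul_cancel₀ h0, one_mul]
      exact y.2

section
variable {F : Type*} [Field F] [Fintype F]

theorem exists_compl (H : AddSubgroup F) :
    ∃ V : Finset F, (0 : F) ∈ V ∧ (∀ x ∈ V, ∀ y ∈ V, x + y ∈ V) ∧ (∀ x ∈ V, -x ∈ V) ∧
      (∀ a : F, (∀ h ∈ H, a * h ∈ H) → ∀ x ∈ V, a * x ∈ V) ∧
      (∀ x : F, ∃ v ∈ V, ∃ h ∈ H, x = v + h) ∧ (∀ x ∈ V, x ∈ H → x = 0) ∧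
      V.card * Nat.card H = Fintype.card F := by
  classical
  let K := Hp H
  let HK : Submodule K F :=
    { carrier := H
      add_mem' := fun ha hb => H.add_mem ha hb
      zero_mem' := H.zero_mem
      smul_mem' := fun c x hx => c.2 x hx }
  obtain ⟨W, hW⟩ := Submodule.exists_isCompl HK
  refine ⟨Finset.univ.filter (· ∈ W), by simp, ?_, ?_, ?_, ?_, ?_, ?_⟩
  · intro x hx y hy
    simp only [Finset.mem_filter, Finset.mem_univ, true_and] at *
    exact W.add_mem hx hy
  · intro x hx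
    simp only [Finset.mem_filter, Finset.mem_univ, true_and] at *
    exact W.neg_mem hx
  · intro a ha x hx
    simp only [Finset.mem_filter, Finset.mem_univ, true_and] at *
    exact W.smul_mem (⟨a, ha⟩ : K) hx
  · intro x
    have : x ∈ HK ⊔ W := by rw [hW.sup_eq_top]; trivial
    obtain ⟨h, hh, v, hv, hx⟩ := Submodule.mem_sup.mp this
    refine ⟨v, by simpa using hv, h, hh, ?_⟩
    rw [← hx, add_comm]
  · intro x hx hxH
    simp only [Finset.mem_filter, Finset.mem_univ, true_and] at hx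
    have : x ∈ HK ⊓ W := ⟨hxH, hx⟩
    rw [hW.inf_eq_bot] at this
    exact (Submodule.mem_bot K).mp this
  · have e := (Submodule.prodEquivOfIsCompl HK W hW).toEquiv
    have h1 : Nat.card (HK × W) = Nat.card F := Nat.card_congr e
    rw [Nat.card_prod] at h1
    have h2 : (Finset.univ.filter (· ∈ W)).card = Nat.card W := by
      rw [Nat.card_eq_fintype_card, Fintype.card_subtype]
    rw [h2, ← Nat.card_eq_fintype_card, ← h1, mul_comm]
    rfl

end


section
variable {F : Type*} [Field F] [Fintype F] [DecidableEq F]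

/-- The union of the cosets `c + H`, `c ∈ C`. -/
def BB (C : Finset F) (H : AddSubgroup F) : Set F := {x | ∃ c ∈ C, ∃ h ∈ H, x = c + h}

omit [DecidableEq F] in
theorem BB_ncard (H : AddSubgroup F) (V : Finset F) 
    (hVneg : ∀ x ∈ V, -x ∈ V) (hVadd : ∀ x ∈ V, ∀ y ∈ V, x + y ∈ V)
    (hVH : ∀ x ∈ V, x ∈ H → x = 0) (C : Finset F) (hC : C ⊆ V) :
    (BB C H).ncard = C.card * Nat.card H := by
  classical
  have h1 : BB C H = (((C ×ˢ (Finset.univ.filter (· ∈ H))).image (fun p : F × F => p.1 + p.2) : Finset F) : Set F) := by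
    ext x
    simp only [BB, Set.mem_ofPred_eq, Finset.coe_image, Set.mem_image, Finset.mem_coe, Finset.mem_product,
      Finset.mem_filter, Finset.mem_univ, true_and, Prod.exists]
    constructor
    · rintro ⟨c, hc, h, hh, rfl⟩
      exact ⟨c, h, ⟨hc, hh⟩, rfl⟩
    · rintro ⟨c, h, ⟨hc, hh⟩, rfl⟩
      exact ⟨c, hc, h, hh, rfl⟩
  rw [h1, Set.ncard_coe_finset, Finset.card_image_of_injOn, Finset.card_product]
  · congr 1
    rw [Nat.card_eq_fintype_card, Fintype.card_subtype]
  · rintro ⟨c, h⟩ hp ⟨c', h'⟩ hp' heq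
    simp only [Finset.coe_product, Set.mem_prod, Finset.mem_coe, Finset.mem_filter, Finset.mem_univ,
      true_and] at hp hp' heq
    have e : c - c' = h' - h := by linear_combination heq
    have e1 : c - c' = 0 := by
      apply hVH
      · rw [sub_eq_add_neg]; exact hVadd _ (hC hp.1) _ (hVneg _ (hC hp'.1))
      · rw [e]; exact H.sub_mem hp'.2 hp.2
    have e2 : c = c' := sub_eq_zero.mp e1
    have e3 : h = h' := by rw [e1] at e; exact (sub_eq_zero.mp e.symm).symm
    rw [e2, e3]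

omit [DecidableEq F] in
theorem exact_stab (d : ℕ) (H : AddSubgroup F)
    (hH : ∀ ζ : F, ζ ^ d = 1 → (fun h => ζ * h) '' (H : Set F) = H) (hd : 0 < d) (V : Finset F)
    (hVneg : ∀ x ∈ V, -x ∈ V) (hVadd : ∀ x ∈ V, ∀ y ∈ V, x + y ∈ V)
    (hVK : ∀ a : F, (∀ h ∈ H, a * h ∈ H) → ∀ x ∈ V, a * x ∈ V)
    (hdec : ∀ x : F, ∃ v ∈ V, ∃ h ∈ H, x = v + h)
    (hVH : ∀ x ∈ V, x ∈ H → x = 0) (C : Finset F) (hC : C ⊆ V)
    (h1 : ∀ z : F, z ^ d = 1 → ∀ x ∈ C, z * x ∈ C)
    (h2 : ∀ a v : F, a ≠ 0 → (∀ h ∈ H, a * h ∈ H) → (∀ x ∈ C, a * x + v ∈ C) → a ^ d = 1 ∧ v = 0) :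
    stab (BB C H) = S d H hH := by
  have memC : ∀ x ∈ V, x ∈ BB C H → x ∈ C := by
    rintro x hx ⟨c, hc, h, hh, rfl⟩
    have : c + h - c ∈ V := by
      rw [sub_eq_add_neg]; exact hVadd _ hx _ (hVneg _ (hC hc))
    have h0 : h = 0 := by
      apply hVH h _ hh
      simpa using this
    rw [h0, add_zero]; exact hc
  have BH : ∀ x ∈ BB C H, ∀ h ∈ H, x + h ∈ BB C H := by
    rintro x ⟨c, hc, h', hh', rfl⟩ h hh
    exact ⟨c, hc, h' + h, H.add_mem hh' hh, by ring⟩
  have BC : ∀ c ∈ C, c ∈ BB C H := fun c hc => ⟨c, hc, 0, H.zero_mem, by ring⟩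
  ext σ
  constructor
  · rintro ⟨⟨a, b, ha, hσ⟩, hB⟩
    have hB' : ∀ x ∈ BB C H, a * x + b ∈ BB C H := by
      intro x hx
      rw [← hσ, ← hB]
      exact ⟨x, hx, rfl⟩
    -- `a ∈ H'`
    have haK : ∀ h ∈ H, a * h ∈ H := by
      intro h hh
      obtain ⟨v, hv, h', hh', hah⟩ := hdec (a * h)
      have hC1 : ∀ x ∈ C, 1 * x + v ∈ C := by
        intro x hx
        rw [one_mul]
        apply memC _ (hVadd _ (hC hx) _ hv)
        have hxB : x ∈ BB C H := BC x hx
        rw [← hB] at hxB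
        obtain ⟨y, hy, hyx⟩ := hxB
        rw [hσ] at hyx
        have h3 : a * (y + h) + b ∈ BB C H := hB' _ (BH y hy h hh)
        have h4 : x + v = (a * (y + h) + b) + (-h') := by
          rw [← hyx]; linear_combination -hah
        rw [h4]
        exact BH _ h3 _ (H.neg_mem hh')
      have := (h2 1 v one_ne_zero (fun h hh => by rw [one_mul]; exact hh) hC1).2
      rw [hah, this, zero_add]
      exact hh'
    obtain ⟨v, hv, h', hh', hb⟩ := hdec b
    have hC2 : ∀ x ∈ C, a * x + v ∈ C := by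
      intro x hx
      apply memC _ (hVadd _ (hVK a haK x (hC hx)) _ hv)
      have h4 : a * x + v = (a * x + b) + (-h') := by rw [hb]; ring
      rw [h4]
      exact BH _ (hB' x (BC x hx)) _ (H.neg_mem hh')
    obtain ⟨e1, e2⟩ := h2 a v ha haK hC2
    refine ⟨a, b, e1, ?_, hσ⟩
    rw [hb, e2, zero_add]; exact hh'
  · rintro ⟨ζ, h, hζ, hh, hσ⟩
    have hζ0 : ζ ≠ 0 := by
      rintro rfl
      rw [zero_pow hd.ne'] at hζ
      exact zero_ne_one hζ
    refine ⟨⟨ζ, h, hζ0, hσ⟩, ?_⟩
    apply Set.eq_of_subset_of_ncard_le _ _ (Set.toFinite _)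
    · rintro y ⟨x, ⟨c, hc, h', hh', rfl⟩, rfl⟩
      rw [hσ]
      refine ⟨ζ * c, h1 ζ hζ c hc, ζ * h' + h, H.add_mem ?_ hh, by ring⟩
      have : ζ * h' ∈ (H : Set F) := by
        rw [← hH ζ hζ]; exact ⟨h', hh', rfl⟩
      exact this
    · rw [Set.ncard_image_of_injective _ σ.injective]

end

/-- Existence of a `k`-subset with stabilizer exactly `S_{d,H}`. -/
theorem exists_exact (α : ℕ) (F : Type*) [Field F] [Fintype F] (hF : Fintype.card F = 2 ^ α)
    (d : ℕ) (hd : d ∣ 2 ^ α - 1) (H : AddSubgroup F)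
    (hH : ∀ ζ : F, ζ ^ d = 1 → (fun h => ζ * h) '' (H : Set F) = H)
    (m : ℕ) (hm3 : 3 ≤ m) (hm : 2 * (m * Nat.card H) ≤ 2 ^ α)
    (hmod : d ∣ m ∨ d ∣ m - 1) (hne : ¬ (m = d + 1 ∧ ∃ b, d + 1 = 2 ^ b)) :
    ∃ B : Set F, B.ncard = m * Nat.card H ∧ stab B = S d H hH := by
  classical
  have hα : α ≠ 0 := by
    rintro rfl
    have := Fintype.one_lt_card (α := F)
    rw [hF] at this
    norm_num at this
  have : CharP F 2 := by
    have hp := FiniteField.card' F
    obtain ⟨p, hp1⟩ := CharP.exists F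
    have := hp1
    obtain ⟨n, hpn, hc⟩ := FiniteField.card F p
    rw [hF] at hc
    have : p = 2 := by
      have h1 : p ∣ 2 ^ α := by rw [hc]; exact dvd_pow_self p n.ne_zero
      exact (Nat.prime_dvd_prime_iff_eq hpn Nat.prime_two).mp (hpn.dvd_of_dvd_pow h1)
    rw [← this]; exact hp1
  have hdodd : Odd d := by
    rcases Nat.even_or_odd d with h | h
    · exfalso
      have h2 : 2 ∣ 2 ^ α - 1 := (even_iff_two_dvd.mp h).trans hd
      have h3 : 2 ∣ 2 ^ α := dvd_pow_self 2 hα
      have h4 : 1 ≤ 2 ^ α := Nat.one_le_two_pow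
      omega
    · exact h
  have hd0 : 0 < d := hdodd.pos
  obtain ⟨V, hV0, hVadd, hVneg, hVK, hdec, hVH, hcard⟩ := exists_compl H
  have hHpos : 0 < Nat.card H := Nat.card_pos
  have hVpow : ∃ r, V.card = 2 ^ r := by
    have : V.card ∣ 2 ^ α := by rw [← hF, ← hcard]; exact Dvd.intro _ rfl
    obtain ⟨r, _, hr⟩ := (Nat.dvd_prime_pow Nat.prime_two).mp this
    exact ⟨r, hr⟩
  have hmV : 2 * m ≤ V.card := by
    rw [← hF, ← hcard, ← mul_assoc] at hm
    exact Nat.le_of_mul_le_mul_right hm hHpos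
  have hVμ : ∀ z : F, z ^ d = 1 → ∀ y ∈ V, z * y ∈ V := by
    intro z hz
    apply hVK
    intro h hh
    have : z * h ∈ (H : Set F) := by
      rw [← hH z hz]; exact ⟨h, hh, rfl⟩
    exact this
  obtain ⟨C, hCV, hC, h1, h2⟩ := core V hV0 hVadd hVpow d
    (by rw [hF]; exact hd) hdodd hVμ m hm3 hmV hmod hne
  refine ⟨BB C H, ?_, ?_⟩
  · rw [BB_ncard H V hVneg hVadd hVH C hCV, hC]
  · exact exact_stab d H hH hd0 V hVneg hVadd hVK hdec hVH C hCV h1
      (fun a v ha haK hg => h2 a v ha (hVK a haK) hg)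


section Converse
variable {F : Type*} [Field F] [Fintype F]

theorem N_eq_zero_iff (S : Subgroup (Equiv.Perm F)) (k : ℕ) :
    N S k = 0 ↔ ∀ B : Set F, B.ncard = k → stab B ≠ S := by
  unfold N
  rw [Set.ncard_eq_zero (Set.toFinite _), Set.eq_empty_iff_forall_notMem]
  constructor
  · intro h B hB hS
    exact h B ⟨hB, hS⟩
  · rintro h B ⟨hB, hS⟩
    exact h B hB hS

theorem charTwo {α : ℕ} (hF : Fintype.card F = 2 ^ α) : CharP F 2 := by
  obtain ⟨p, hp1⟩ := CharP.exists F
  have := hp1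
  obtain ⟨n, hpn, hc⟩ := FiniteField.card F p
  rw [hF] at hc
  have : p = 2 := by
    have h1 : p ∣ 2 ^ α := by rw [hc]; exact dvd_pow_self p n.ne_zero
    exact (Nat.prime_dvd_prime_iff_eq hpn Nat.prime_two).mp (hpn.dvd_of_dvd_pow h1)
  rw [← this]; exact hp1

/-- translations by elements of `H` preserve a set with stabilizer `S_{d,H}` -/
theorem add_mem_of_stab (d : ℕ) (H : AddSubgroup F)
    (hH : ∀ ζ : F, ζ ^ d = 1 → (fun h => ζ * h) '' (H : Set F) = H) (B : Set F)
    (hB : stab B = S d H hH) (ζ h : F) (hζ : ζ ^ d = 1) (hζ0 : ζ ≠ 0) (hh : h ∈ H) :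
    ∀ x ∈ B, ζ * x + h ∈ B := by
  intro x hx
  let σ : Equiv.Perm F :=
    { toFun := fun x => ζ * x + h
      invFun := fun x => ζ⁻¹ * (x - h)
      left_inv := fun x => by field_simp; ring
      right_inv := fun x => by field_simp; ring }
  have hσ : σ ∈ S d H hH := ⟨ζ, h, hζ, hh, fun x => rfl⟩
  rw [← hB] at hσ
  have h1 := hσ.2
  rw [← h1]
  exact ⟨x, hx, rfl⟩

/-- an affine map preserving `B` lies in `S_{d,H}` -/
theorem mem_S_of_preserve (d : ℕ) (H : AddSubgroup F)
    (hH : ∀ ζ : F, ζ ^ d = 1 → (fun h => ζ * h) '' (H : Set F) = H) (B : Set F)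
    (hB : stab B = S d H hH) (a b : F) (ha : a ≠ 0) (hp : ∀ x ∈ B, a * x + b ∈ B) :
    a ^ d = 1 ∧ b ∈ H := by
  let σ : Equiv.Perm F :=
    { toFun := fun x => a * x + b
      invFun := fun x => a⁻¹ * (x - b)
      left_inv := fun x => by field_simp; ring
      right_inv := fun x => by field_simp; ring }
  have hσ : σ ∈ stab B := by
    refine ⟨⟨a, b, ha, fun x => rfl⟩, ?_⟩
    apply Set.eq_of_subset_of_ncard_le _ _ (Set.toFinite _)
    · rintro y ⟨x, hx, rfl⟩
      exact hp x hx
    · rw [Set.ncard_image_of_injective _ σ.injective]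
  rw [hB] at hσ
  obtain ⟨ζ, h, h1, h2, h3⟩ := hσ
  have e0 : b = h := by
    have : a * 0 + b = ζ * 0 + h := h3 0
    simpa using this
  have e1 : a = ζ := by
    have : a * 1 + b = ζ * 1 + h := h3 1
    rw [e0] at this
    simpa using this
  rw [e0, e1]
  exact ⟨h1, h2⟩

theorem conv1 (α : ℕ) (hF : Fintype.card F = 2 ^ α)
    (d : ℕ) (hd : d ∣ 2 ^ α - 1) (hd0 : 0 < d) (H : AddSubgroup F)
    (hH : ∀ ζ : F, ζ ^ d = 1 → (fun h => ζ * h) '' (H : Set F) = H)
    (B : Set F) (hB : B.ncard = Nat.card H) (hS : stab B = S d H hH) :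
    d = Nat.card {x : F // ∀ h ∈ H, x * h ∈ H} - 1 := by
  classical
  have hHpos : 0 < Nat.card H := Nat.card_pos
  have hne : B.Nonempty := by
    rw [← Set.ncard_pos (Set.toFinite B), hB]; exact hHpos
  obtain ⟨c, hc⟩ := hne
  have hBc : B = (fun h => c + h) '' (H : Set F) := by
    symm
    apply Set.eq_of_subset_of_ncard_le _ _ (Set.toFinite _)
    · rintro y ⟨h, hh, rfl⟩
      have := add_mem_of_stab d H hH B hS 1 h (one_pow d) one_ne_zero hh c hc
      rwa [one_mul] at this
    · rw [Set.ncard_image_of_injective _ (add_right_injective c), hB]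
      exact le_of_eq rfl
  have h1 : ∀ a : F, a ≠ 0 → (∀ h ∈ H, a * h ∈ H) → a ^ d = 1 := by
    intro a ha haH
    refine (mem_S_of_preserve d H hH B hS a ((1 - a) * c) ha ?_).1
    intro x hx
    rw [hBc] at hx ⊢
    obtain ⟨h, hh, rfl⟩ := hx
    exact ⟨a * h, haH h hh, by ring⟩
  obtain ⟨ζ, hζ⟩ := exists_primitive (F := F) d (by rw [hF]; exact hd)
  have h2 : (Polynomial.nthRootsFinset d (1 : F)) =
      (Finset.univ.filter (fun x : F => ∀ h ∈ H, x * h ∈ H)).erase 0 := by
    ext x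
    rw [Polynomial.mem_nthRootsFinset hd0, Finset.mem_erase]
    simp only [Finset.mem_filter, Finset.mem_univ, true_and]
    constructor
    · intro hx
      refine ⟨?_, ?_⟩
      · rintro rfl
        rw [zero_pow hd0.ne'] at hx
        exact zero_ne_one hx
      · intro h hh
        have : x * h ∈ (H : Set F) := by
          rw [← hH x hx]; exact ⟨h, hh, rfl⟩
        exact this
    · rintro ⟨hx0, hx⟩
      exact h1 x hx0 hx
  have h3 := congrArg Finset.card h2
  rw [hζ.card_nthRootsFinset, Finset.card_erase_of_mem] at h3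
  · rw [Nat.card_eq_fintype_card, Fintype.card_subtype]
    exact h3
  · simp

theorem conv2 (α : ℕ) (hF : Fintype.card F = 2 ^ α)
    (d : ℕ) (hd : d ∣ 2 ^ α - 1) (hd0 : 0 < d) (H : AddSubgroup F)
    (hH : ∀ ζ : F, ζ ^ d = 1 → (fun h => ζ * h) '' (H : Set F) = H) (b : ℕ) (hb : d + 1 = 2 ^ b)
    (B : Set F) (hB : B.ncard = (d + 1) * Nat.card H) : stab B ≠ S d H hH := by
  classical
  intro hS
  have hchar : CharP F 2 := charTwo hF
  have hHpos : 0 < Nat.card H := Nat.card_pos
  obtain ⟨V, hV0, hVadd, hVneg, hVK, hdec, hVH, hcard⟩ := exists_compl H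
  have hμH : ∀ z : F, z ^ d = 1 → ∀ h ∈ H, z * h ∈ H := by
    intro z hz h hh
    have : z * h ∈ (H : Set F) := by
      rw [← hH z hz]; exact ⟨h, hh, rfl⟩
    exact this
  have hz0 : ∀ z : F, z ^ d = 1 → z ≠ 0 := by
    rintro z hz rfl
    rw [zero_pow hd0.ne'] at hz
    exact zero_ne_one hz
  have hBH : ∀ x ∈ B, ∀ h ∈ H, x + h ∈ B := by
    intro x hx h hh
    have := add_mem_of_stab d H hH B hS 1 h (one_pow d) one_ne_zero hh x hx
    rwa [one_mul] at this
  let C := V.filter (· ∈ B)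
  have hCV : C ⊆ V := Finset.filter_subset _ _
  have hBC : B = BB C H := by
    ext x
    constructor
    · intro hx
      obtain ⟨v, hv, h, hh, rfl⟩ := hdec x
      refine ⟨v, Finset.mem_filter.mpr ⟨hv, ?_⟩, h, hh, rfl⟩
      have := hBH _ hx _ (H.neg_mem hh)
      rwa [add_neg_cancel_right] at this
    · rintro ⟨c, hc, h, hh, rfl⟩
      exact hBH _ (Finset.mem_filter.mp hc).2 h hh
  have hCcard : C.card = d + 1 := by
    have h1 := BB_ncard H V hVneg hVadd hVH C hCV
    rw [← hBC, hB] at h1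
    exact (Nat.eq_of_mul_eq_mul_right hHpos h1).symm
  -- a translation `t ≠ 0`, `t ∈ V`, preserving `C` gives a contradiction
  have key : ∀ t ∈ V, t ≠ 0 → ¬ ∀ x ∈ C, x + t ∈ C := by
    intro t htV ht hCt
    have := (mem_S_of_preserve d H hH B hS 1 t one_ne_zero (by
      intro x hx
      rw [hBC] at hx ⊢
      obtain ⟨c, hc, h, hh, rfl⟩ := hx
      exact ⟨c + t, hCt c hc, h, hh, by ring⟩)).2
    exact ht (hVH t htV this)
  have hCμ : ∀ z : F, z ^ d = 1 → ∀ x ∈ C, z * x ∈ C := by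
    intro z hz x hx
    obtain ⟨h1, h2⟩ := Finset.mem_filter.mp hx
    refine Finset.mem_filter.mpr ⟨hVK z (hμH z hz) x h1, ?_⟩
    have := add_mem_of_stab d H hH B hS z 0 hz (hz0 z hz) H.zero_mem x h2
    rwa [add_zero] at this
  rcases Nat.lt_or_ge d 2 with hd2 | hd2
  · have hd1 : d = 1 := by omega
    rw [hd1] at hCcard
    obtain ⟨c1, c2, hne, hC⟩ := Finset.card_eq_two.mp hCcard
    have hc1 : c1 ∈ C := by rw [hC]; simp
    have hc2 : c2 ∈ C := by rw [hC]; simp
    have h2 : (2 : F) = 0 := CharTwo.two_eq_zero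
    refine key (c1 + c2) (hVadd _ (hCV hc1) _ (hCV hc2)) ?_ ?_
    · intro h
      apply hne
      linear_combination h - c2 * h2
    · intro x hx
      rw [hC] at hx
      rcases Finset.mem_insert.mp hx with rfl | hx
      · have : x + (x + c2) = c2 := by linear_combination x * h2
        rw [this]; exact hc2
      · rw [Finset.mem_singleton] at hx
        subst hx
        have : x + (c1 + x) = c1 := by linear_combination x * h2
        rw [this]; exact hc1
  · obtain ⟨ζ, hζ⟩ := exists_primitive (F := F) d (by rw [hF]; exact hd)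
    have hζne : ζ ≠ 1 := by
      intro h
      subst h
      have := hζ.dvd_of_pow_eq_one 1 (by simp)
      have := Nat.le_of_dvd one_pos this
      omega
    obtain ⟨u, huC, hu⟩ := Finset.exists_mem_ne (by omega : 1 < C.card) 0
    -- the orbit of `u`
    let O := (Polynomial.nthRootsFinset d (1 : F)).image (fun z => z * u)
    have hOC : O ⊆ C := by
      intro y hy
      obtain ⟨z, hz, rfl⟩ := Finset.mem_image.mp hy
      exact hCμ z ((Polynomial.mem_nthRootsFinset hd0 _).mp hz) u huC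
    have hOcard : O.card = d := by
      rw [Finset.card_image_of_injective _ (mul_left_injective₀ hu), hζ.card_nthRootsFinset]
    have hdiff : (C \ O).card = 1 := by
      rw [Finset.card_sdiff_of_subset hOC]; omega
    obtain ⟨w, hw⟩ := Finset.card_eq_one.mp hdiff
    have hwm : w ∈ C \ O := by rw [hw]; simp
    obtain ⟨hwC, hwO⟩ := Finset.mem_sdiff.mp hwm
    have hζw : ζ * w ∈ C \ O := by
      refine Finset.mem_sdiff.mpr ⟨hCμ ζ hζ.pow_eq_one w hwC, fun h => hwO ?_⟩
      obtain ⟨z, hz, hzw⟩ := Finset.mem_image.mp h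
      refine Finset.mem_image.mpr ⟨ζ⁻¹ * z, ?_, ?_⟩
      · rw [Polynomial.mem_nthRootsFinset hd0] at hz ⊢
        rw [mul_pow, hz, inv_pow, hζ.pow_eq_one, inv_one, one_mul]
      · have hzw' : z * u = ζ * w := hzw
        rw [mul_assoc, hzw', ← mul_assoc, inv_mul_cancel₀ (hζ.ne_zero hd0.ne'), one_mul]
    have hw0 : w = 0 := by
      rw [hw, Finset.mem_singleton] at hζw
      have : (ζ - 1) * w = 0 := by linear_combination hζw
      rcases mul_eq_zero.mp this with h | h
      · exact absurd (sub_eq_zero.mp h) hζne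
      · exact h
    have memC : ∀ x, x ∈ C ↔ (x / u) ^ (2 ^ b) = x / u := by
      intro x
      rw [← hb]
      constructor
      · intro hx
        by_cases hxO : x ∈ O
        · obtain ⟨z, hz, rfl⟩ := Finset.mem_image.mp hxO
          rw [Polynomial.mem_nthRootsFinset hd0] at hz
          rw [mul_div_assoc, div_self hu, mul_one, pow_succ, hz, one_mul]
        · have : x ∈ C \ O := Finset.mem_sdiff.mpr ⟨hx, hxO⟩
          rw [hw, Finset.mem_singleton, hw0] at this
          rw [this, zero_div, zero_pow (by omega)]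
      · intro hx
        by_cases hx0 : x = 0
        · rw [hx0, ← hw0]; exact hwC
        · apply hOC
          refine Finset.mem_image.mpr ⟨x / u, ?_, div_mul_cancel₀ x hu⟩
          rw [Polynomial.mem_nthRootsFinset hd0]
          rw [pow_succ] at hx
          exact mul_right_cancel₀ (div_ne_zero hx0 hu) (by rw [hx, one_mul])
    refine key u (hCV huC) hu ?_
    intro x hx
    have := Fact.mk Nat.prime_two
    rw [memC] at hx ⊢
    rw [add_div, div_self hu, add_pow_char_pow, hx, one_pow]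

end Converse

/-- Full answer to Q1, with the exact list of the vanishing cases. -/
theorem main_theorem (α : ℕ) (F : Type*) [Field F] [Fintype F] (hF : Fintype.card F = 2 ^ α)
    (d : ℕ) (hd : d ∣ 2 ^ α - 1) (H : AddSubgroup F)
    (hH : ∀ ζ : F, ζ ^ d = 1 → (fun h => ζ * h) '' (H : Set F) = H)
    (k : ℕ) (hk3 : 3 ≤ k) (hk : 2 * k ≤ 2 ^ α)
    (hmod : k ≡ 0 [MOD d * Nat.card H] ∨ k ≡ Nat.card H [MOD d * Nat.card H]) :
    (N (S d H hH) k = 0 → ∃ r, k = 2 ^ r) ∧
    (N (S d H hH) k = 0 ↔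
      (k = Nat.card H ∧ d ≠ Nat.card {x : F // ∀ h ∈ H, x * h ∈ H} - 1) ∨
      (k = (d + 1) * Nat.card H ∧ ∃ b, d + 1 = 2 ^ b)) := by
  classical
  have hchar : CharP F 2 := charTwo hF
  have hHpos : 0 < Nat.card H := Nat.card_pos
  have hα : α ≠ 0 := by
    rintro rfl
    have := Fintype.one_lt_card (α := F)
    rw [hF] at this
    norm_num at this
  have hdodd : Odd d := by
    rcases Nat.even_or_odd d with h | h
    · exfalso
      have h2 : 2 ∣ 2 ^ α - 1 := (even_iff_two_dvd.mp h).trans hd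
      have h3 : 2 ∣ 2 ^ α := dvd_pow_self 2 hα
      have h4 : 1 ≤ 2 ^ α := Nat.one_le_two_pow
      omega
    · exact h
  have hd0 : 0 < d := hdodd.pos
  have hHpow : ∃ s, Nat.card H = 2 ^ s := by
    have : Nat.card H ∣ 2 ^ α := by
      rw [← hF, ← Nat.card_eq_fintype_card]; exact H.card_addSubgroup_dvd_card
    obtain ⟨r, _, hr⟩ := (Nat.dvd_prime_pow Nat.prime_two).mp this
    exact ⟨r, hr⟩
  have hkm : ∃ m, k = m * Nat.card H ∧ (d ∣ m ∨ (1 ≤ m ∧ d ∣ m - 1)) := by
    rcases hmod with h | h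
    · obtain ⟨c, hc⟩ := (Nat.modEq_zero_iff_dvd).mp h
      exact ⟨d * c, by rw [hc]; ring, Or.inl (Dvd.intro _ rfl)⟩
    · have hge : Nat.card H ≤ k := by
        by_contra hcon
        push Not at hcon
        have h1 := (Nat.modEq_iff_dvd' hcon.le).mp h
        have h2 := Nat.le_of_dvd (by omega) h1
        have h3 : Nat.card H ≤ d * Nat.card H := Nat.le_mul_of_pos_left _ hd0
        omega
      obtain ⟨c, hc⟩ := (Nat.modEq_iff_dvd' hge).mp h.symm
      refine ⟨d * c + 1, ?_, Or.inr ⟨by omega, by simp⟩⟩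
      have : (d * c + 1) * Nat.card H = d * Nat.card H * c + Nat.card H := by ring
      rw [this, ← hc]; omega
  obtain ⟨m, hkm, hmod'⟩ := hkm
  have hiff : N (S d H hH) k = 0 ↔
      (k = Nat.card H ∧ d ≠ Nat.card {x : F // ∀ h ∈ H, x * h ∈ H} - 1) ∨
      (k = (d + 1) * Nat.card H ∧ ∃ b, d + 1 = 2 ^ b) := by
    constructor
    · intro hN
      rw [N_eq_zero_iff] at hN
      rcases Nat.lt_or_ge m 3 with hm3 | hm3
      · interval_cases m
        · omega
        · left
          rw [one_mul] at hkm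
          refine ⟨hkm, fun hdK => ?_⟩
          obtain ⟨V, hV0, hVadd, hVneg, hVK, hdec, hVH, hcard⟩ := exists_compl H
          refine hN (BB {0} H) ?_ (exact_stab d H hH hd0 V hVneg hVadd hVK hdec hVH {0}
            (by simpa using hV0) (by intro z _ x hx; rw [Finset.mem_singleton] at hx ⊢; rw [hx, mul_zero]) ?_)
          · rw [BB_ncard H V hVneg hVadd hVH {0} (by simpa using hV0), Finset.card_singleton, one_mul, hkm]
          · intro a v ha haK hg
            have hv : v = 0 := by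
              have := hg 0 (Finset.mem_singleton_self 0)
              rw [Finset.mem_singleton, mul_zero, zero_add] at this
              exact this
            refine ⟨?_, hv⟩
            have h5 : Nat.card {x : F // ∀ h ∈ H, x * h ∈ H} = Fintype.card (Hp H) := by
              rw [← Nat.card_eq_fintype_card]
              rfl
            rw [hdK, h5]
            have ha' : (⟨a, haK⟩ : Hp H) ≠ 0 := by
              intro h
              exact ha (congrArg Subtype.val h)
            have h6 := FiniteField.pow_card_sub_one_eq_one (⟨a, haK⟩ : Hp H) ha'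
            exact congrArg Subtype.val h6
        · right
          have hd1 : d = 1 := by
            rcases hmod' with h | ⟨_, h⟩
            · have := Nat.le_of_dvd (by norm_num) h
              obtain ⟨r, hr⟩ := hdodd
              omega
            · exact Nat.dvd_one.mp h
          rw [hd1]
          exact ⟨hkm, 1, by norm_num⟩
      · right
        by_contra hcon
        have hne : ¬ (m = d + 1 ∧ ∃ b, d + 1 = 2 ^ b) := by
          rintro ⟨h1, h2⟩
          exact hcon ⟨by rw [hkm, h1], h2⟩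
        obtain ⟨B, hB1, hB2⟩ := exists_exact α F hF d hd H hH m hm3 (by rw [← hkm]; exact hk)
          (by rcases hmod' with h | ⟨_, h⟩
              · exact Or.inl h
              · exact Or.inr h) hne
        exact hN B (by rw [hB1, hkm]) hB2
    · rintro (⟨h1, h2⟩ | ⟨h1, b, hb⟩)
      · rw [N_eq_zero_iff]
        intro B hB hS
        exact h2 (conv1 α hF d hd hd0 H hH B (by rw [hB, h1]) hS)
      · rw [N_eq_zero_iff]
        intro B hB
        exact conv2 α hF d hd hd0 H hH b hb B (by rw [hB, h1])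
  refine ⟨fun hN => ?_, hiff⟩
  obtain ⟨s, hs⟩ := hHpow
  rcases hiff.mp hN with ⟨h1, _⟩ | ⟨h1, b, hb⟩
  · exact ⟨s, by rw [h1, hs]⟩
  · exact ⟨b + s, by rw [h1, hs, hb, pow_add]⟩

end Pool.Agent.Lib.MP_3242d6_co
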